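import Pool.Agent.Helper91.MC.PA

/-!
MP_4042d8_co, row X_SVX: data of vertices.
-/

namespace Pool.Agent.Helper91.MC

open Pool.Agent.Helper27.MC Pool.Agent.Helper51.MC Pool.Agent.Helper88.MC Pool.Agent.Helper64.MC

set_option autoImplicit false
set_option linter.unusedSectionVars false

section

variable {V : Type} [Fintype V] [DecidableEq V] {G : SimpleGraph V} [DecidableRel G.Adj]
  {c : V → Bool}

theorem mem_Dd {s : V} : s ∈ Dd G c ↔ tS G c s ∧ nQ G c s = 2 := by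
  unfold Dd
  rw [Finset.mem_filter]
  simp

theorem mem_Q0 {s : V} : s ∈ Q0 G c ↔ tQ G c s ∧ nS G c s = 0 := by
  unfold Q0
  rw [Finset.mem_filter]
  simp

theorem mem_Th {s : V} : s ∈ Th G c ↔ tQ G c s ∧ nS G c s = 2 := by
  unfold Th
  rw [Finset.mem_filter]
  simp

theorem sv_swap {s m a b : V} (h : Sv G c s m a b) : Sv G c s m b a :=
  ⟨h.cs, h.cm, h.cb, h.ca, ⟨fun w => (h.n3.nb w).trans (by tauto), h.n3.xz, h.n3.xy,
    h.n3.yz.symm⟩⟩

theorem sv_tS (hm : ∀ v, mu G c v ≤ 1) {s m a b : V} (h : Sv G c s m a b) : tS G c s :=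
  ⟨h.cs, mu_of_rm hm (sv_rm h)⟩

theorem sv_tSm (hm : ∀ v, mu G c v ≤ 1) {s m a b : V} (h : Sv G c s m a b) : tS G c m :=
  ⟨h.cm, mu_of_rm hm (sv_rm h).symm⟩

/-- the data of a vertex of type `S` with a given true neighbour -/
theorem sv_ex (hG : G.IsRegularOfDegree 3) {s a : V} (hs : tS G c s) (h : G.Adj s a)
    (ca : c a = true) : ∃ m b, Sv G c s m a b := by
  obtain ⟨m, x, y, nb, cm, cx, cy, hxy, hmx, hmy⟩ := s_data hG hs
  rcases (nb a).1 h with h1 | h1 | h1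
  · rw [h1, cm] at ca
    cases ca
  · subst h1
    exact ⟨m, y, hs.1, cm, cx, cy, ⟨nb, hmx, hmy, hxy⟩⟩
  · subst h1
    exact ⟨m, x, hs.1, cm, cy, cx, ⟨fun w => (nb w).trans (by tauto), hmy, hmx, hxy.symm⟩⟩

/-- the data of a vertex of type `A` with a given neighbour -/
theorem av_ex (hG : G.IsRegularOfDegree 3) {a x : V} (ha : tA G c a) (h : G.Adj a x) :
    ∃ y z, Av G c a x y z := by
  obtain ⟨x', y', z', h1, h2, h3, nb, cx, cy, cz⟩ := (NB V G hG c a).2.1 ha.2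
  rw [ha.1] at cx cy cz
  rcases (nb x).1 h with h4 | h4 | h4
  · subst h4
    exact ⟨y', z', ha.1, cx, cy, cz, ⟨nb, h1, h2, h3⟩⟩
  · subst h4
    exact ⟨x', z', ha.1, cy, cx, cz, ⟨fun w => (nb w).trans (by tauto), h1.symm, h3, h2⟩⟩
  · subst h4
    exact ⟨x', y', ha.1, cz, cx, cy, ⟨fun w => (nb w).trans (by tauto), h2.symm, h3.symm, h1⟩⟩

/-- the number of neighbours of type `Q` -/
theorem sv_nQ {s m a b : V} (h : Sv G c s m a b) :
    nQ G c s = (if tQ G c a then 1 else 0) + (if tQ G c b then 1 else 0) := by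
  have hab := h.n3.yz
  have hmq : ¬ tQ G c m := by
    intro h1
    have h2 := h1.1
    rw [h.cm] at h2
    cases h2
  have e : Finset.univ.filter (fun w => G.Adj s w ∧ tQ G c w) =
      ({a, b} : Finset V).filter (fun w => tQ G c w) := by
    ext w
    simp only [Finset.mem_filter, Finset.mem_univ, true_and, Finset.mem_insert,
      Finset.mem_singleton, h.n3.nb w]
    constructor
    · rintro ⟨h1 | h1 | h1, h2⟩
      · exact (hmq (h1 ▸ h2)).elim
      · exact ⟨Or.inl h1, h2⟩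
      · exact ⟨Or.inr h1, h2⟩
    · rintro ⟨h1 | h1, h2⟩
      · exact ⟨Or.inr (Or.inl h1), h2⟩
      · exact ⟨Or.inr (Or.inr h1), h2⟩
  unfold nQ
  rw [e, Finset.card_filter, Finset.sum_pair hab]

/-- true vertices are of type `A` or of type `Q` -/
theorem tA_or_tQ (hm : ∀ v, mu G c v ≤ 1) {v : V} (h : c v = true) : tA G c v ∨ tQ G c v := by
  have h1 := hm v
  rcases Nat.lt_or_ge (mu G c v) 1 with h2 | h2
  · exact Or.inl ⟨h, by omega⟩
  · exact Or.inr ⟨h, by omega⟩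

/-- false vertices are of type `B` or of type `S` -/
theorem tB_or_tS (hm : ∀ v, mu G c v ≤ 1) {v : V} (h : c v = false) : tB G c v ∨ tS G c v := by
  have h1 := hm v
  rcases Nat.lt_or_ge (mu G c v) 1 with h2 | h2
  · exact Or.inl ⟨h, by omega⟩
  · exact Or.inr ⟨h, by omega⟩

theorem tA_not_tQ {v : V} (h : tA G c v) : ¬ tQ G c v := by
  intro h'
  have h1 := h.2
  have h2 := h'.2
  omega

theorem sv_Fr (hm : ∀ v, mu G c v ≤ 1) {s m a b : V} (h : Sv G c s m a b) :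
    s ∈ Fr G c ↔ tA G c a ∧ tA G c b := by
  rw [mem_Fr, sv_nQ h]
  have hs := sv_tS hm h
  rcases tA_or_tQ hm h.ca with h1 | h1 <;> rcases tA_or_tQ hm h.cb with h2 | h2
  · simp [tA_not_tQ h1, tA_not_tQ h2, hs, h1, h2]
  · have h3 : ¬ tA G c b := fun h4 => tA_not_tQ h4 h2
    simp [tA_not_tQ h1, h2, h3]
  · have h3 : ¬ tA G c a := fun h4 => tA_not_tQ h4 h1
    simp [tA_not_tQ h2, h1, h3]
  · have h3 : ¬ tA G c a := fun h4 => tA_not_tQ h4 h1
    simp [h1, h2, h3]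

theorem sv_T1 (hm : ∀ v, mu G c v ≤ 1) {s m a b : V} (h : Sv G c s m a b) :
    s ∈ T1 G c ↔ (tA G c a ∧ tQ G c b) ∨ (tQ G c a ∧ tA G c b) := by
  rw [mem_T1, sv_nQ h]
  have hs := sv_tS hm h
  rcases tA_or_tQ hm h.ca with h1 | h1 <;> rcases tA_or_tQ hm h.cb with h2 | h2
  · simp [tA_not_tQ h1, tA_not_tQ h2]
  · simp [tA_not_tQ h1, h2, hs, h1]
  · simp [tA_not_tQ h2, h1, hs, h2]
  · have h3 : ¬ tA G c a := fun h4 => tA_not_tQ h4 h1
    have h4 : ¬ tA G c b := fun h4 => tA_not_tQ h4 h2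
    simp [h1, h2, h3, h4]

theorem sv_Dd (hm : ∀ v, mu G c v ≤ 1) {s m a b : V} (h : Sv G c s m a b) :
    s ∈ Dd G c ↔ tQ G c a ∧ tQ G c b := by
  rw [mem_Dd, sv_nQ h]
  have hs := sv_tS hm h
  by_cases h1 : tQ G c a <;> by_cases h2 : tQ G c b <;> simp [h1, h2, hs]

/-- a slot from the data of its vertices -/
theorem sv_slot (hm : ∀ v, mu G c v ≤ 1) {u m a b x y : V} (h : Sv G c u m a b) (hb : tA G c b)
    (ha : Av G c a u x y) : Slot G c u m a b x y :=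
  ⟨h.cs, h.cm, h.ca, h.cb, av_mu ha, hb.2, h.n3.yz, h.n3.nb, ha.n3.nb, ha.n3.yz,
    ha.n3.xy.symm, ha.n3.xz.symm⟩

end

/-- row X_SVX -/
theorem st_SVX : ST_SVX := by
  intro V _ _ G _ hG c hm
  exact ⟨fun s a hs h ca => sv_ex hG hs h ca, fun a x ha h => av_ex hG ha h,
    fun s m a b h => ⟨sv_swap h, sv_tS hm h, sv_tSm hm h, sv_rm h⟩,
    fun s m a b h => sv_Fr hm h, fun s m a b h => sv_T1 hm h, fun s m a b h => sv_Dd hm h,
    fun u m a b x y h hb ha => sv_slot hm h hb ha⟩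

end Pool.Agent.Helper91.MC
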