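import Pool.Agent.Helper91.MC.C45
import Pool.Agent.Helper96.MC.CSt

/-!
MP_4042d8_co, section C: rows C4 and C5 in the form of the statement file of helper96.
-/

set_option autoImplicit false
set_option linter.unusedSectionVars false

namespace Pool.Agent.Helper91.MC.CF

open Pool.Agent.Helper27.MC Pool.Agent.Helper51.MC Pool.Agent.Helper88.MC Pool.Agent.Helper64.MC
open Pool.Agent.Helper9.MC
open Pool.Agent.Helper91.MC (Tht IsAp CKs)

section

variable {V : Type} [Fintype V] [DecidableEq V] {G : SimpleGraph V} [DecidableRel G.Adj]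
  {c : V → Bool}

theorem tht_iff {q p x x' n n' : V} :
    Tht G c q p x x' n n' ↔ Pool.Agent.Helper96.MC.Td G c q p x x' n n' := by
  constructor
  · intro h
    exact ⟨h.cq, h.cp, h.cs, h.cs', h.cn, h.swap.cn, h.nq,
      Pool.Agent.Helper96.MC.n3_12 h.hs.n3, Pool.Agent.Helper96.MC.n3_12 h.hs'.n3⟩
  · intro h
    exact ⟨h.cp, h.nq, ⟨h.cx, h.cx', h.cq, h.cn, Pool.Agent.Helper96.MC.n3_12 h.nx⟩,
      ⟨h.cx', h.cx, h.cq, h.cn', Pool.Agent.Helper96.MC.n3_12 h.nx'⟩⟩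

theorem isap_iff (hG : G.IsRegularOfDegree 3) (hm : ∀ v, mu G c v ≤ 1) {q : V} :
    IsAp G c q ↔ Pool.Agent.Helper96.MC.Apx G c q := by
  constructor
  · rintro ⟨p, s, s', n, n', h⟩
    exact (tht_iff.1 h).apx hm
  · rintro ⟨s, s', h⟩
    obtain ⟨p, n, n', h1⟩ := Pool.Agent.Helper96.MC.td_of hG hm h
    exact ⟨p, s, s', n, n', tht_iff.2 h1⟩

/-- an apex with given mate -/
theorem tht_of (hG : G.IsRegularOfDegree 3) (hm : ∀ v, mu G c v ≤ 1) {q p : V}
    (h : Pool.Agent.Helper96.MC.Apx G c q) (hr : Rm G c q p) :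
    ∃ s s' n n', Tht G c q p s s' n n' := by
  obtain ⟨p', s, s', n, n', h1⟩ := (isap_iff hG hm).2 h
  have e : p' = p := rm_uniq (hm q) h1.rqp hr
  subst e
  exact ⟨s, s', n, n', h1⟩

theorem cks (hG : G.IsRegularOfDegree 3) {j : ℕ} (hj : 1 ≤ j) (hM1 : Pool.Agent.Helper96.MC.ST_M1)
    (h1 : Pool.Agent.Helper96.MC.ST_C1) (h2 : Pool.Agent.Helper96.MC.ST_C2)
    (h3 : Pool.Agent.Helper96.MC.ST_C3) :
    CKs G (fun c => Pool.Agent.Helper96.MC.CK G c j) where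
  mu1 := fun c hc => hc.1.mu1
  rot := by
    intro c q p s s' n n' hc hT hn
    have h := hM1 V G hG c hc.1.mu1 q p s s' n n' (tht_iff.1 hT) hn
    rw [Finset.pair_comm]
    exact ⟨h.opt j hc.1, fun c' hc' => h.kp.trans (hc.2 c' hc')⟩
  f1 := by
    intro c q s s' hc hq hs hs' a1 a2 hne
    exact (F1 hG hj hc.1 hq hs hs' a1 a2 hne).1
  c1 := by
    intro c q p s s' n n' hc hT hk
    rcases h1 V G hG c j hj hc q p s s' n n' (tht_iff.1 hT) with h4 | h4
    · exact absurd (h4.1 ▸ hT.sn.symm) hk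
    · exact h4.2.2
  c2 := by
    intro c q p s s' n n' u m b hc hT hp hu hb
    have hm := hc.1.mu1
    have hup : G.Adj p u := ((hu.n3.nb p).2 (Or.inr (Or.inl rfl))).symm
    have hub : G.Adj u b := (hu.n3.nb b).2 (Or.inr (Or.inr rfl))
    rcases h2 V G hG c j hj hc q p u b ((isap_iff hG hm).1 ⟨_, _, _, _, _, hT⟩) hT.rqp
      (fun h => hp ((isap_iff hG hm).2 h)) hup (sv_tS hm hu) hub hu.n3.yz.symm hu.cb with h4 | h4
    · exact absurd (h4.2.symm.trans hb.2) (by norm_num)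
    · obtain ⟨k, k', h5, h6⟩ := h4.2
      have key : ∀ z, G.Adj b z → c z = false := by
        intro z hz
        cases h7 : c z
        · rfl
        · exact absurd ⟨hz, by rw [h7, hb.1]⟩ (nomate hb.2 z)
      exact ⟨k, k', h5, key k ((h5.nb k).2 (by simp)), key k' ((h5.nb k').2 (by simp)), h6.1⟩
  c3 := by
    intro c a s s' y w x x' k k' hc ha hs has' hT
    have hm := hc.1.mu1
    exact h3 V G hG c j hj hc a s s' y w ha ((hs.n3.nb a).2 (Or.inr (Or.inl rfl))).symm has'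
      (sv_rm hs) ((hs.n3.nb y).2 (Or.inr (Or.inr rfl))) hs.n3.yz.symm hs.cb
      ((isap_iff hG hm).1 ⟨_, _, _, _, _, hT⟩) hT.rqp

/-- data of a child step or of an accessible corner: both corners are not adjacent to the partner -/
theorem nk_of (hG : G.IsRegularOfDegree 3) {j : ℕ} (hj : 1 ≤ j)
    (h1 : Pool.Agent.Helper96.MC.ST_C1) (hc : Pool.Agent.Helper96.MC.CK G c j)
    {q p x x' n n' : V} (hT : Pool.Agent.Helper96.MC.Td G c q p x x' n n') (hn : n ≠ p) :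
    ¬ G.Adj p x ∧ ¬ G.Adj p x' := by
  have key : ∀ {x x' n n' : V}, Pool.Agent.Helper96.MC.Td G c q p x x' n n' → n ≠ p →
      ¬ G.Adj p x := by
    intro x x' n n' hT hn h
    rcases (hT.nx.nb p).1 h.symm with h5 | h5 | h5
    · exact hT.rqp.ne h5.symm
    · exact absurd h5 (ntf hT.cp hT.cx')
    · exact hn h5.symm
  refine ⟨key hT hn, ?_⟩
  rcases h1 V G hG c j hj hc q p x x' n n' hT with h4 | h4
  · exact absurd h4.1 hn
  · exact key hT.swap h4.2.1

theorem acc_of (hG : G.IsRegularOfDegree 3) {j : ℕ} (hj : 1 ≤ j)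
    (h1 : Pool.Agent.Helper96.MC.ST_C1) (hc : Pool.Agent.Helper96.MC.CK G c j) :
    ∀ (m : ℕ) (q : V), Pool.Agent.Helper96.MC.Acc G c m q → Pool.Agent.Helper91.MC.Acc G c m q := by
  have hm := hc.1.mu1
  intro m
  induction m with
  | zero =>
      rintro q ⟨w, h0, -, p, x, x', n, n', hT, hn⟩
      rw [h0] at hT
      have hnp : n ≠ p := by
        rintro rfl
        exact nomate hn.2 _ hT.rqp.symm
      obtain ⟨k1, k2⟩ := nk_of hG hj h1 hc hT hnp
      exact Pool.Agent.Helper91.MC.Acc.zero (tht_iff.2 hT) k1 k2 hn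
  | succ m ih =>
      rintro q ⟨w, h0, hw, hA⟩
      have h5 := ih (w 1) ⟨fun i => w (i + 1), rfl, fun i hi => hw (i + 1) (by omega), hA⟩
      obtain ⟨p, x, x', n, n', hT, hn, ha, hr⟩ := hw 0 (by omega)
      rw [h0] at hT
      obtain ⟨k1, k2⟩ := nk_of hG hj h1 hc hT hn
      obtain ⟨s, s', l, l', h6⟩ := tht_of hG hm ha hr
      exact Pool.Agent.Helper91.MC.Acc.succ (tht_iff.2 hT) k1 k2 h6 h5

theorem acc_nk (hm : ∀ v, mu G c v ≤ 1) {m : ℕ} {q p x x' n n' : V}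
    (h : Pool.Agent.Helper91.MC.Acc G c m q) (hT : Tht G c q p x x' n n') :
    ¬ G.Adj p x ∧ ¬ G.Adj p x' := by
  cases h with
  | zero g1 g2 g3 g4 => exact nk_uniq hm g1 g2 g3 hT
  | succ g1 g2 g3 g4 g5 => exact nk_uniq hm g1 g2 g3 hT

end

theorem st_C4 (hM1 : Pool.Agent.Helper96.MC.ST_M1)
    (h1 : Pool.Agent.Helper96.MC.ST_C1) (h2 : Pool.Agent.Helper96.MC.ST_C2)
    (h3 : Pool.Agent.Helper96.MC.ST_C3) : Pool.Agent.Helper96.MC.ST_C4 := by
  intro V _ _ G _ hG c j hj hc m q q' p p' s hq hq' hne hr hr' hp hp' hs a1 a2 hA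
  have hm := hc.1.mu1
  have hK := cks hG hj hM1 h1 h2 h3
  obtain ⟨x, x', k, k', hT⟩ := tht_of hG hm hq hr
  obtain ⟨y, y', l, l', hT'⟩ := tht_of hG hm hq' hr'
  have hA' := acc_of hG hj h1 hc m q hA
  obtain ⟨n1, n2⟩ := acc_nk hm hA' hT
  have hpp : p ≠ p' := by
    rintro rfl
    exact hne (rm_uniq (hm p) hr.symm hr'.symm)
  obtain ⟨mu', b, hu⟩ := sv_ex hG hs a1 hT.cp
  have e : b = p' := by
    rcases (hu.n3.nb p').1 a2 with h4 | h4 | h4
    · exact absurd h4 (ntf hT'.cp hu.cm)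
    · exact absurd h4.symm hpp
    · exact h4.symm
  rw [e] at hu
  exact Pool.Agent.Helper91.MC.c4 hG hK m c hc q p x x' k k' q' p' y y' l l' s mu' hT n1 n2 hT'
    hne (fun h => hp ((isap_iff hG hm).1 h)) (fun h => hp' ((isap_iff hG hm).1 h)) hu hA'

theorem st_C5 (hM1 : Pool.Agent.Helper96.MC.ST_M1)
    (h1 : Pool.Agent.Helper96.MC.ST_C1) (h2 : Pool.Agent.Helper96.MC.ST_C2)
    (h3 : Pool.Agent.Helper96.MC.ST_C3) : Pool.Agent.Helper96.MC.ST_C5 := by
  intro V _ _ G _ hG c j hj hc m q p w hq hp hr hch hA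
  have hm := hc.1.mu1
  have hK := cks hG hj hM1 h1 h2 h3
  obtain ⟨p0, x, x', n, n', hT, hn, hw, hrw⟩ := hch
  have e : p0 = p := rm_uniq (hm q) hT.rqp hr
  subst e
  obtain ⟨n1, n2⟩ := nk_of hG hj h1 hc hT hn
  obtain ⟨t, t', l, l', hT'⟩ := tht_of hG hm hp hr.symm
  obtain ⟨y, y', k, k', hW⟩ := tht_of hG hm hw hrw
  exact Pool.Agent.Helper91.MC.c5 hG hK m c hc q p0 x x' n n' t t' l l' w y y' k k' (tht_iff.2 hT) n1
    hT' hW (acc_of hG hj h1 hc m p0 hA)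

end Pool.Agent.Helper91.MC.CF
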