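import Pool.Agent.Helper91.MC.SVX
import Pool.Agent.Helper27.MC.Base2

/-!
MP_4042d8_co: dictionary between the predicates of `Helper27/MC/Base2.lean` and the finsets of
`Helper64/MC/Types.lean`.
-/

namespace Pool.Agent.Helper91.MC

open Pool.Agent.Helper27.MC hiding Fr T1 ter
open Pool.Agent.Helper51.MC Pool.Agent.Helper88.MC Pool.Agent.Helper64.MC

set_option autoImplicit false
set_option linter.unusedSectionVars false

section

variable {V : Type} [Fintype V] [DecidableEq V] {G : SimpleGraph V} [DecidableRel G.Adj]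
  {c : V → Bool}

/-- dictionary: free vertices -/
theorem dict_Fr (hG : G.IsRegularOfDegree 3) (hm : ∀ v, mu G c v ≤ 1) (s : V) :
    s ∈ Fr G c ↔ Pool.Agent.Helper27.MC.Fr G c s := by
  constructor
  · intro h
    obtain ⟨h1, _⟩ := mem_Fr.1 h
    refine ⟨h1, fun w hw cw => ?_⟩
    obtain ⟨m, b, hs⟩ := sv_ex hG h1 hw cw
    exact ((sv_Fr hm hs).1 h).1
  · rintro ⟨h1, h2⟩
    obtain ⟨m, a, b, nb, cm, ca, cb, hab, hma, hmb⟩ := s_data hG h1
    have hs : Sv G c s m a b := ⟨h1.1, cm, ca, cb, ⟨nb, hma, hmb, hab⟩⟩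
    exact (sv_Fr hm hs).2 ⟨h2 a ((nb a).2 (Or.inr (Or.inl rfl))) ca,
      h2 b ((nb b).2 (Or.inr (Or.inr rfl))) cb⟩

/-- dictionary: vertices of type `T1` -/
theorem dict_T1 (hG : G.IsRegularOfDegree 3) (hm : ∀ v, mu G c v ≤ 1) (s : V) :
    s ∈ T1 G c ↔ Pool.Agent.Helper27.MC.T1 G c s := by
  constructor
  · intro h
    obtain ⟨h1, _⟩ := mem_T1.1 h
    obtain ⟨m, a, b, nb, cm, ca, cb, hab, hma, hmb⟩ := s_data hG h1
    have hs : Sv G c s m a b := ⟨h1.1, cm, ca, cb, ⟨nb, hma, hmb, hab⟩⟩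
    have adjA := (nb a).2 (Or.inr (Or.inl rfl))
    have adjB := (nb b).2 (Or.inr (Or.inr rfl))
    rcases (sv_T1 hm hs).1 h with ⟨h2, h3⟩ | ⟨h2, h3⟩
    · exact ⟨h1, ⟨b, adjB, h3⟩, ⟨a, adjA, h2⟩⟩
    · exact ⟨h1, ⟨a, adjA, h2⟩, ⟨b, adjB, h3⟩⟩
  · rintro ⟨h1, ⟨q, hq, hq'⟩, ⟨a, ha, ha'⟩⟩
    obtain ⟨m, b, hs⟩ := sv_ex hG h1 ha ha'.1
    have hqb : q = b := by
      rcases (hs.n3.nb q).1 hq with h | h | h
      · have h2 := hq'.1
        rw [h, hs.cm] at h2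
        cases h2
      · exact (tA_not_tQ ha' (h ▸ hq')).elim
      · exact h
    exact (sv_T1 hm hs).2 (Or.inl ⟨ha', hqb ▸ hq'⟩)

/-- dictionary: vertices of type `D` -/
theorem dict_D (hG : G.IsRegularOfDegree 3) (hm : ∀ v, mu G c v ≤ 1) (s : V) :
    s ∈ Dd G c ↔ Pool.Agent.Helper27.MC.TD G c s := by
  constructor
  · intro h
    obtain ⟨h1, _⟩ := mem_Dd.1 h
    refine ⟨h1, fun w hw cw => ?_⟩
    obtain ⟨m, b, hs⟩ := sv_ex hG h1 hw cw
    exact ((sv_Dd hm hs).1 h).1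
  · rintro ⟨h1, h2⟩
    obtain ⟨m, a, b, nb, cm, ca, cb, hab, hma, hmb⟩ := s_data hG h1
    have hs : Sv G c s m a b := ⟨h1.1, cm, ca, cb, ⟨nb, hma, hmb, hab⟩⟩
    exact (sv_Dd hm hs).2 ⟨h2 a ((nb a).2 (Or.inr (Or.inl rfl))) ca,
      h2 b ((nb b).2 (Or.inr (Or.inr rfl))) cb⟩

/-- dictionary: vertices of type `Q` without neighbour of type `S` -/
theorem dict_Q0 (q : V) : q ∈ Q0 G c ↔ tQ G c q ∧ ∀ s, G.Adj q s → ¬ tS G c s := by
  rw [mem_Q0]
  unfold nS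
  rw [Finset.card_eq_zero, Finset.filter_eq_empty_iff]
  constructor
  · rintro ⟨h1, h2⟩
    exact ⟨h1, fun s hs hs' => h2 (Finset.mem_univ s) ⟨hs, hs'⟩⟩
  · rintro ⟨h1, h2⟩
    exact ⟨h1, fun s _ hs => h2 s hs.1 hs.2⟩

/-- a vertex of type `Q` has at most two neighbours of type `S` -/
theorem nS_le (hG : G.IsRegularOfDegree 3) {q : V} (hq : tQ G c q) : nS G c q ≤ 2 := by
  obtain ⟨m, a, b, _, _, _, nb, cm, _, _⟩ := (NB V G hG c q).1 hq.2
  have : Finset.univ.filter (fun w => G.Adj q w ∧ tS G c w) ⊆ ({a, b} : Finset V) := by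
    intro w hw
    rw [Finset.mem_filter] at hw
    obtain ⟨_, h1, h2⟩ := hw
    rw [Finset.mem_insert, Finset.mem_singleton]
    rcases (nb w).1 h1 with h | h | h
    · have h3 := h2.1
      rw [h, cm, hq.1] at h3
      cases h3
    · exact Or.inl h
    · exact Or.inr h
  exact (Finset.card_le_card this).trans Finset.card_le_two

/-- dictionary: Thetas -/
theorem dict_Th (hG : G.IsRegularOfDegree 3) (q : V) :
    q ∈ Th G c ↔ tQ G c q ∧ ∃ s s', s ≠ s' ∧ G.Adj q s ∧ G.Adj q s' ∧ tS G c s ∧ tS G c s' := by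
  rw [mem_Th]
  constructor
  · rintro ⟨h1, h2⟩
    unfold nS at h2
    obtain ⟨s, s', hne, he⟩ := Finset.card_eq_two.1 h2
    have h3 : ∀ w, w ∈ Finset.univ.filter (fun w => G.Adj q w ∧ tS G c w) ↔ w = s ∨ w = s' := by
      intro w
      rw [he]
      simp
    have h4 := (h3 s).2 (Or.inl rfl)
    have h5 := (h3 s').2 (Or.inr rfl)
    rw [Finset.mem_filter] at h4 h5
    exact ⟨h1, s, s', hne, h4.2.1, h5.2.1, h4.2.2, h5.2.2⟩
  · rintro ⟨h1, s, s', hne, h2, h3, h4, h5⟩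
    refine ⟨h1, le_antisymm (nS_le hG h1) ?_⟩
    unfold nS
    have : ({s, s'} : Finset V) ⊆ Finset.univ.filter (fun w => G.Adj q w ∧ tS G c w) := by
      intro w hw
      rw [Finset.mem_insert, Finset.mem_singleton] at hw
      rw [Finset.mem_filter]
      rcases hw with rfl | rfl
      · exact ⟨Finset.mem_univ _, h2, h4⟩
      · exact ⟨Finset.mem_univ _, h3, h5⟩
    have h6 := Finset.card_le_card this
    rw [Finset.card_pair hne] at h6
    exact h6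

end

end Pool.Agent.Helper91.MC
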