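import Pool.Agent.Helper35.MC.Ob
import Pool.Agent.Helper45.MC.StE
import Pool.Agent.Helper91.MC.SVX

/-!
MP_4042d8_co, section E: rows UB and UC.
-/

set_option autoImplicit false
set_option linter.unusedSectionVars false
set_option linter.unusedSimpArgs false
set_option linter.unusedVariables false

namespace Pool.Agent.Helper91.MC

open Pool.Agent.Helper27.MC Pool.Agent.Helper51.MC Pool.Agent.Helper88.MC Pool.Agent.Helper64.MC
open Pool.Agent.Helper35.MC Pool.Agent.Helper45.MC

section

variable {V : Type} [Fintype V] [DecidableEq V] {G : SimpleGraph V} [DecidableRel G.Adj]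
  {c : V → Bool}

/-- data of a vertex in `T1` -/
theorem t1_nb (hG : G.IsRegularOfDegree 3) (hm : ∀ v, mu G c v ≤ 1) {s : V} (hs : s ∈ T1 G c) :
    ∃ m y q r, Sv G c s m y q ∧ tA G c y ∧ tQ G c q ∧ Rm G c q r := by
  obtain ⟨h1, h2, h3, h4, h5, h6, h7⟩ := st_SVX V G hG c hm
  have hS : tS G c s := by
    unfold T1 at hs
    simp only [Finset.mem_filter, Finset.mem_univ, true_and] at hs
    exact hs.1
  obtain ⟨a, b, d, n1, n2, n3, nb⟩ := nb_three G hG s
  have hex : ∃ a, G.Adj s a ∧ c a = true := by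
    by_contra hne
    push Not at hne
    have key : ∀ w, G.Adj s w → Rm G c s w := by
      intro w hw
      refine ⟨hw, ?_⟩
      rw [hS.1]
      exact Bool.eq_false_iff.2 (hne w hw)
    exact n1 (rm_uniq (hm s) (key a ((nb a).2 (by simp))) (key b ((nb b).2 (by simp))))
  obtain ⟨a, ha, ca⟩ := hex
  obtain ⟨m, b, hb⟩ := h1 s a hS ha ca
  rcases (h5 s m a b hb).1 hs with ⟨g1, g2⟩ | ⟨g1, g2⟩
  · obtain ⟨r, hr⟩ := exists_mate g2.2
    exact ⟨m, a, b, r, hb, g1, g2, hr⟩
  · obtain ⟨r, hr⟩ := exists_mate g1.2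
    exact ⟨m, b, a, r, (h3 s m a b hb).1, g2, g1, hr⟩

/-- row UB -/
theorem st_UB : ST_UB := by
  intro V _ _ G _ hG c hm u m a b t t' q k g g' h s hu hb ha ht hqk hk hgt hg' hgh hhu hqo hs hst
    hst' hsg hsh hsm hsb
  obtain ⟨ms, y, q1, q2, hS, hy, hq1, hq2⟩ := t1_nb hG hm hs
  obtain ⟨cu, cm, ca, cb, ⟨nu, nma, nmb, nab⟩⟩ := hu
  obtain ⟨ct, ct', -, cq, ⟨nt, nta, ntq, naq⟩⟩ := ht
  obtain ⟨-, -, -, -, ⟨na, nut, nut', ntt'⟩⟩ := ha
  obtain ⟨nk, nqg, nqg', ngg'⟩ := hk
  obtain ⟨cs, cms, cy, cq1, ⟨ns, nmy, nmq, nyq⟩⟩ := hS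
  obtain ⟨-, mb⟩ := hb
  obtain ⟨cg', mg'⟩ := hg'
  have ck : c k = true := by rw [hqk.2, cq]
  have hR : ∀ x y, Rm G c x y ↔ (G.Adj x y ∧ c y = c x) := fun _ _ => Iff.rfl
  have hsym : ∀ x y, G.Adj x y ↔ G.Adj y x := fun x y => G.adj_comm x y
  have hirr : ∀ x, ¬ G.Adj x x := fun x => G.loopless.irrefl x
  have uq : ∀ x y z, Rm G c x y → Rm G c x z → y = z := fun x y z h1 h2 => rm_uniq (hm x) h1 h2
  have hnb : ∀ x, ¬ Rm G c b x := nomate mb
  have hng' : ∀ x, ¬ Rm G c g' x := nomate mg'
  have hny : ∀ x, ¬ Rm G c y x := nomate hy.2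
  have rum : Rm G c u m := ⟨(nu m).2 (by simp), by rw [cu, cm]⟩
  have rtt : Rm G c t t' := ⟨(nt t').2 (by simp), by rw [ct, ct']⟩
  have rsm : Rm G c s ms := ⟨(ns ms).2 (by simp), by rw [cs, cms]⟩
  have cg : c g = false := by
    cases hg : c g
    · rfl
    · exact absurd (uq k q g hqk.symm ⟨(nk g).2 (by simp), by rw [hg, ck]⟩) nqg
  have ch : c h = false := by rw [hgh.2, cg]
  have cq2 : c q2 = true := by rw [hq2.2, cq1]
  have hna : ∀ x, ¬ Rm G c a x := by
    intro x hx
    have h1 := (na x).1 hx.1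
    have h2 := hx.2
    rcases h1 with rfl | rfl | rfl
    · rw [cu, ca] at h2; cases h2
    · rw [ct, ca] at h2; cases h2
    · rw [ct', ca] at h2; cases h2
  -- `s` is not `u`
  have asq : G.Adj s q1 := (ns q1).2 (by simp)
  have hsu : s ≠ u := by
    rintro rfl
    rcases (nu q1).1 asq with e | e | e
    · rw [e, cm] at cq1; cases cq1
    · rw [e] at hq2; exact hna _ hq2
    · rw [e] at hq2; exact hnb _ hq2
  have hq1k : q1 ≠ k := by
    rintro rfl
    rcases (nk s).1 asq.symm with e | e | e
    · rw [e, cq] at cs; cases cs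
    · exact hsg e
    · rw [e] at rsm; exact hng' _ rsm
  have hq1q : q1 ≠ q := by
    rintro rfl
    exact hst (hqo s asq.symm ⟨cs, mu_of_rm hm rsm⟩)
  have hq2k : q2 ≠ k := by
    rintro rfl
    exact hq1q (uq q2 q1 q hq2.symm hqk.symm)
  have hq2q : q2 ≠ q := by
    rintro rfl
    exact hq1k (uq q2 q1 k hq2.symm hqk)
  have hyk : y ≠ k := by
    rintro rfl
    exact hny _ hqk.symm
  have hyq : y ≠ q := by
    rintro rfl
    exact hny _ hqk
  have hyb : y ≠ b := by
    rintro rfl
    exact hsb ((ns y).2 (by simp))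
  have hya : y ≠ a := by
    rintro rfl
    rcases (na s).1 ((ns y).2 (by simp)).symm with e | e | e
    · exact hsu e
    · exact hst e
    · exact hst' e
  have hyq2 : y ≠ q2 := by
    rintro rfl
    exact hny _ hq2.symm
  have hq1a : q1 ≠ a := by rintro rfl; exact hna _ hq2
  have hq1b : q1 ≠ b := by rintro rfl; exact hnb _ hq2
  have hq2a : q2 ≠ a := by rintro rfl; exact hna _ hq2.symm
  have hq2b : q2 ≠ b := by rintro rfl; exact hnb _ hq2.symm
  have hka : k ≠ a := by rintro rfl; exact hna _ hqk.symm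
  have hkb : k ≠ b := by rintro rfl; exact hnb _ hqk.symm
  have hqb : q ≠ b := by rintro rfl; exact hnb _ hqk
  have hqkn : q ≠ k := hqk.ne
  have akg : G.Adj k g := (nk g).2 (by simp)
  have akg' : G.Adj k g' := (nk g').2 (by simp)
  have akq : G.Adj k q := (nk q).2 (by simp)
  have hgu : g ≠ u := by
    rintro rfl
    rcases (nu k).1 akg.symm with e | e | e
    · rw [e, cm] at ck; cases ck
    · exact hka e
    · exact hkb e
  have hgt1 : g ≠ t := by
    rintro rfl
    rcases (nt k).1 akg.symm with e | e | e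
    · rw [e, ct'] at ck; cases ck
    · exact hka e
    · exact hqkn e.symm
  have hg'u : g' ≠ u := by rintro rfl; exact hng' _ rum
  have hg't : g' ≠ t := by rintro rfl; exact hng' _ rtt
  have hg't' : g' ≠ t' := by rintro rfl; exact hng' _ rtt.symm
  have hg's : g' ≠ s := by rintro rfl; exact hng' _ rsm
  have hg'h : g' ≠ h := by rintro rfl; exact hng' _ hgh.symm
  have hht : h ≠ t := by
    rintro rfl
    exact hgt (uq h g t' hgh.symm rtt)
  have hht' : h ≠ t' := by
    rintro rfl
    exact hgt1 (uq h g t hgh.symm rtt.symm)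
  have hms : ms ≠ u := by
    rintro rfl
    exact hsm (uq ms s m rsm.symm rum)
  have hms1 : ms ≠ t := by
    rintro rfl
    exact hst' (uq ms s t' rsm.symm rtt)
  have hmt : m ≠ t := by
    rintro rfl
    exact nut' (uq m u t' rum.symm rtt)
  have hmt' : m ≠ t' := by
    rintro rfl
    exact nut (uq m u t rum.symm rtt.symm)
  have hms2 : m ≠ s := hsm.symm
  -- adjacencies
  have ahk : ¬ G.Adj h k := by
    rw [hsym, nk]
    rintro (e | e | e)
    · rw [e, cq] at ch; cases ch
    · exact hgh.ne e.symm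
    · exact hg'h e.symm
  have aha : ¬ G.Adj h a := by
    rw [hsym, na]
    rintro (e | e | e)
    · exact hhu e
    · exact hht e
    · exact hht' e
  have aga : ¬ G.Adj g a := by
    rw [hsym, na]
    rintro (e | e | e)
    · exact hgu e
    · exact hgt1 e
    · exact hgt e
  have ag'a : ¬ G.Adj g' a := by
    rw [hsym, na]
    rintro (e | e | e)
    · exact hg'u e
    · exact hg't e
    · exact hg't' e
  have at'k : ¬ G.Adj t' k := by
    rw [hsym, nk]
    rintro (e | e | e)
    · rw [e, cq] at ct'; cases ct'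
    · exact hgt e.symm
    · exact hg't' e.symm
  have aqs : ¬ G.Adj q s := by
    intro e
    exact hst (hqo s e ⟨cs, mu_of_rm hm rsm⟩)
  have aqu : ¬ G.Adj q u := by
    rw [hsym, nu]
    rintro (e | e | e)
    · rw [e, cm] at cq; cases cq
    · exact naq e.symm
    · exact hqb e
  have dX : dd c ({u, a, t, k, s} : Finset V) = 1 := by
    have e1 : u ≠ a := by rintro rfl; rw [cu] at ca; cases ca
    have e2 : u ≠ k := by rintro rfl; rw [cu] at ck; cases ck
    have e3 : a ≠ t := by rintro rfl; rw [ct] at ca; cases ca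
    have e5 : a ≠ s := by rintro rfl; rw [cs] at ca; cases ca
    have e6 : t ≠ k := by rintro rfl; rw [ct] at ck; cases ck
    have e7 : k ≠ s := by rintro rfl; rw [cs] at ck; cases ck
    unfold dd
    rw [Finset.sum_insert (by simp [e1, nut, e2, hsu.symm]), Finset.sum_insert (by simp [e3, hka.symm, e5]),
      Finset.sum_insert (by simp [e6, hst.symm]), Finset.sum_insert (by simp [e7]),
      Finset.sum_singleton]
    simp [cu, ct, ca, ck, cs]
  have yX : y ∉ ({u, a, t, k, s} : Finset V) := by
    simp only [Finset.mem_insert, Finset.mem_singleton]; grind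
  have q1X : q1 ∉ ({u, a, t, k, s} : Finset V) := by
    simp only [Finset.mem_insert, Finset.mem_singleton]; grind
  have q2X : q2 ∉ ({u, a, t, k, s} : Finset V) := by
    simp only [Finset.mem_insert, Finset.mem_singleton]; grind
  have hX : h ∉ ({u, a, t, k, s} : Finset V) := by
    simp only [Finset.mem_insert, Finset.mem_singleton]; grind
  have gX : g ∉ ({u, a, t, k, s} : Finset V) := by
    simp only [Finset.mem_insert, Finset.mem_singleton]; grind
  have g'X : g' ∉ ({u, a, t, k, s} : Finset V) := by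
    simp only [Finset.mem_insert, Finset.mem_singleton]; grind
  have Ry : ∀ x, Rm G (flp c {u, a, t, k, s}) y x ↔ x = s := by
    intro x
    rw [rm_out yX]
    simp only [Finset.mem_insert, Finset.mem_singleton]
    grind
  have Rs : ∀ x, Rm G (flp c {u, a, t, k, s}) s x ↔ x = y ∨ x = q1 := by
    intro x
    rw [rm_in (by simp), hR]
    simp only [Finset.mem_insert, Finset.mem_singleton]
    grind
  have Rq1 : ∀ x, Rm G (flp c {u, a, t, k, s}) q1 x ↔ x = s ∨ x = q2 := by
    intro x
    rw [rm_out q1X]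
    simp only [Finset.mem_insert, Finset.mem_singleton]
    grind
  have Rq2 : ∀ x, Rm G (flp c {u, a, t, k, s}) q2 x ↔ x = q1 := by
    intro x
    rw [rm_out q2X]
    simp only [Finset.mem_insert, Finset.mem_singleton]
    grind
  have Rh : ∀ x, Rm G (flp c {u, a, t, k, s}) h x ↔ x = g := by
    intro x
    rw [rm_out hX]
    simp only [Finset.mem_insert, Finset.mem_singleton]
    grind
  have Rg : ∀ x, Rm G (flp c {u, a, t, k, s}) g x ↔ x = h ∨ x = k := by
    intro x
    rw [rm_out gX]
    simp only [Finset.mem_insert, Finset.mem_singleton]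
    grind
  have Rk : ∀ x, Rm G (flp c {u, a, t, k, s}) k x ↔ x = g ∨ x = g' := by
    intro x
    rw [rm_in (by simp), hR]
    simp only [Finset.mem_insert, Finset.mem_singleton]
    grind
  have Rg' : ∀ x, Rm G (flp c {u, a, t, k, s}) g' x ↔ x = k := by
    intro x
    rw [rm_out g'X]
    simp only [Finset.mem_insert, Finset.mem_singleton]
    grind
  have cy' : flp c {u, a, t, k, s} y = true := by rw [flp_not yX, cy]
  have ch' : flp c {u, a, t, k, s} h = false := by rw [flp_not hX, ch]
  have hkh : k ≠ h := by rintro rfl; rw [ch] at ck; cases ck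
  have hsq2 : s ≠ q2 := by rintro rfl; rw [cs] at cq2; cases cq2
  refine ⟨Finset.univ, Blk.of2 (Finset.subset_univ _) dX
    (comp4 nyq hsq2 cy' Ry Rs Rq1 Rq2)
    (comp4 hkh.symm ngg' ch' Rh Rg Rk Rg') (fun _ => Finset.mem_univ _)
    (fun _ => Finset.mem_univ _) ?_⟩
  intro v h1 h2
  have v1 : v ≠ y := h1 0
  have v2 : v ≠ s := h1 1
  have v3 : v ≠ q1 := h1 2
  have v4 : v ≠ q2 := h1 3
  have v5 : v ≠ h := h2 0
  have v6 : v ≠ g := h2 1
  have v7 : v ≠ k := h2 2
  have v8 : v ≠ g' := h2 3
  by_cases vu : v = u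
  · subst vu
    refine mu_le_one (z := b) fun x => ?_
    rw [rm_in (by simp), hR]
    simp only [Finset.mem_insert, Finset.mem_singleton]
    grind
  by_cases va : v = a
  · subst va
    refine mu_le_one (z := t') fun x => ?_
    rw [rm_in (by simp), hR]
    simp only [Finset.mem_insert, Finset.mem_singleton]
    grind
  by_cases vt : v = t
  · subst vt
    refine mu_le_one (z := q) fun x => ?_
    rw [rm_in (by simp), hR]
    simp only [Finset.mem_insert, Finset.mem_singleton]
    grind
  have vX : v ∉ ({u, a, t, k, s} : Finset V) := by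
    simp only [Finset.mem_insert, Finset.mem_singleton]; grind
  by_cases vb : v = b
  · subst vb
    refine mu_le_one (z := u) fun x => ?_
    rw [rm_out vX]
    simp only [Finset.mem_insert, Finset.mem_singleton]
    grind
  by_cases vq : v = q
  · subst vq
    refine mu_le_one (z := t) fun x => ?_
    rw [rm_out vX]
    simp only [Finset.mem_insert, Finset.mem_singleton]
    grind
  by_cases vt' : v = t'
  · subst vt'
    refine mu_le_one (z := a) fun x => ?_
    rw [rm_out vX]
    simp only [Finset.mem_insert, Finset.mem_singleton]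
    grind
  refine out_le hm vX ?_
  simp only [Finset.mem_insert, Finset.mem_singleton]
  intro x hx hyx
  have hxy := (hsym v x).1 hyx
  rcases hx with rfl | rfl | rfl | rfl | rfl
  · rcases (nu v).1 hxy with h | h | h
    · rw [h, cu, cm]
    · exact absurd h va
    · exact absurd h vb
  · rcases (na v).1 hxy with h | h | h
    · exact absurd h vu
    · exact absurd h vt
    · exact absurd h vt'
  · rcases (nt v).1 hxy with h | h | h
    · exact absurd h vt'
    · exact absurd h va
    · exact absurd h vq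
  · rcases (nk v).1 hxy with h | h | h
    · exact absurd h vq
    · exact absurd h v6
    · exact absurd h v8
  · rcases (ns v).1 hxy with h | h | h
    · rw [h, cs, cms]
    · exact absurd h v1
    · exact absurd h v3

end

end Pool.Agent.Helper91.MC
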