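import Pool.Agent.Helper35.MC.Ob
import Pool.Agent.Helper91.MC.C45F

/-!
MP_4042d8_co, section D, part II: facts GK0, GK1 on K-hubs, and GEX.
-/

set_option autoImplicit false
set_option linter.unusedSectionVars false
set_option linter.unusedSimpArgs false
set_option linter.unusedVariables false

namespace Pool.Agent.Helper91.MC.GK

open Pool.Agent.Helper27.MC Pool.Agent.Helper51.MC Pool.Agent.Helper88.MC Pool.Agent.Helper64.MC
open Pool.Agent.Helper35.MC Pool.Agent.Helper91.MC

section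

variable {V : Type} [Fintype V] [DecidableEq V] (G : SimpleGraph V) [DecidableRel G.Adj]

/-- a `K`-hub `a` of the free vertex `u` (mate `v`, other true neighbour `b`): the two other
neighbours `t1`, `t2` of `a` are mates in `T1`; `r1`, `r2` their neighbours of type `Q`, `p1`, `p2`
the mates of `r1`, `r2`. -/
structure Khb (c : V → Bool) (u v a b t1 t2 r1 r2 p1 p2 : V) : Prop where
  hu : Sv G c u v a b
  ta : tA G c a
  tb : tA G c b
  ha : Av G c a u t1 t2
  h1 : Sv G c t1 t2 a r1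
  h2 : Sv G c t2 t1 a r2
  q1 : Rm G c r1 p1
  q2 : Rm G c r2 p2

variable {G} {c : V → Bool}

theorem Khb.symm {u v a b t1 t2 r1 r2 p1 p2 : V} (h : Khb G c u v a b t1 t2 r1 r2 p1 p2) :
    Khb G c u v a b t2 t1 r2 r1 p2 p1 :=
  ⟨h.hu, h.ta, h.tb, ⟨h.ha.ca, h.ha.cx, h.ha.cz, h.ha.cy, n3_swap h.ha.n3⟩, h.h2, h.h1, h.q2, h.q1⟩

/-- GK1 -/
theorem gk1 (hG : G.IsRegularOfDegree 3) {j : ℕ} (hj : 1 ≤ j) (hO : Opt G c j)
    {u v a b t1 t2 r1 r2 p1 p2 : V} (K : Khb G c u v a b t1 t2 r1 r2 p1 p2) {g z m e : V}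
    (hp : N3 G p1 r1 g z) (hz : tB G c z) (hg : Sv G c g m p1 e) (he : tA G c e) (hgv : g ≠ v)
    (hgt : g ≠ t2) : e = b := by
  by_contra heb
  have hm := hO.mu1
  obtain ⟨cu, cv, ca, cb, ⟨nu, nva, nvb, nab⟩⟩ := K.hu
  obtain ⟨ct1, ct2, -, cr1, ⟨nt1, nt2a, nt2r, nar⟩⟩ := K.h1
  obtain ⟨-, -, -, -, ⟨na, nut1, nut2, ntt⟩⟩ := K.ha
  obtain ⟨np, nrg, nrz, ngz⟩ := hp
  obtain ⟨cg, cm, cp1, ce, ⟨ng, nmp, nme, npe⟩⟩ := hg
  have q1 := K.q1
  have hR : ∀ x y, Rm G c x y ↔ (G.Adj x y ∧ c y = c x) := fun _ _ => Iff.rfl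
  have hsym : ∀ x y, G.Adj x y ↔ G.Adj y x := fun x y => G.adj_comm x y
  have hirr : ∀ x, ¬ G.Adj x x := fun x => G.loopless.irrefl x
  have uq : ∀ x y z, Rm G c x y → Rm G c x z → y = z := fun x y z h1 h2 => rm_uniq (hm x) h1 h2
  have hna : ∀ x, ¬ Rm G c a x := nomate K.ta.2
  have hnb : ∀ x, ¬ Rm G c b x := nomate K.tb.2
  have hnz : ∀ x, ¬ Rm G c z x := nomate hz.2
  have hne : ∀ x, ¬ Rm G c e x := nomate he.2
  have cz := hz.1
  have ruv : Rm G c u v := ⟨(nu v).2 (by simp), by rw [cu, cv]⟩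
  have rtt : Rm G c t1 t2 := ⟨(nt1 t2).2 (by simp), by rw [ct1, ct2]⟩
  have rgm : Rm G c g m := ⟨(ng m).2 (by simp), by rw [cg, cm]⟩
  have hra : r1 ≠ a := by rintro rfl; exact hna _ q1
  have hrb : r1 ≠ b := by rintro rfl; exact hnb _ q1
  have hre : r1 ≠ e := by rintro rfl; exact hne _ q1
  have hpa : p1 ≠ a := by rintro rfl; exact hna _ q1.symm
  have hpb : p1 ≠ b := by rintro rfl; exact hnb _ q1.symm
  have hpr : p1 ≠ r1 := q1.ne.symm
  have apg : G.Adj p1 g := (np g).2 (by simp)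
  have apz : G.Adj p1 z := (np z).2 (by simp)
  have hgu : g ≠ u := by
    rintro rfl
    rcases (nu p1).1 apg.symm with h | h | h
    · exact ntf cp1 cv h
    · exact hpa h
    · exact hpb h
  have hgt1 : g ≠ t1 := by
    rintro rfl
    rcases (nt1 p1).1 apg.symm with h | h | h
    · exact ntf cp1 ct2 h
    · exact hpa h
    · exact hpr h
  have hea : e ≠ a := by
    rintro rfl
    rcases (na g).1 ((ng e).2 (by simp)).symm with h | h | h
    · exact hgu h
    · exact hgt1 h
    · exact hgt h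
  have hzu : z ≠ u := by rintro rfl; exact hnz _ ruv
  have hzv : z ≠ v := by rintro rfl; exact hnz _ ruv.symm
  have hzt1 : z ≠ t1 := by rintro rfl; exact hnz _ rtt
  have hzt2 : z ≠ t2 := by rintro rfl; exact hnz _ rtt.symm
  have hzm : z ≠ m := by rintro rfl; exact hnz _ rgm.symm
  have hmu' : m ≠ u := by
    rintro rfl
    exact hgv (uq m g v rgm.symm ruv)
  have hmt1 : m ≠ t1 := by
    rintro rfl
    exact hgt (uq m g t2 rgm.symm rtt)
  have hmt2 : m ≠ t2 := by
    rintro rfl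
    exact hgt1 (uq m g t1 rgm.symm rtt.symm)
  have hvt1 : v ≠ t1 := by
    rintro rfl
    exact nut2 (uq v u t2 ruv.symm rtt)
  have hvt2 : v ≠ t2 := by
    rintro rfl
    exact nut1 (uq v u t1 ruv.symm rtt.symm)
  have hmg : m ≠ g := rgm.ne.symm
  -- non-adjacencies
  have arg : ¬ G.Adj r1 g := by
    rw [hsym, ng]
    rintro (h | h | h)
    · exact ntf cr1 cm h
    · exact hpr h.symm
    · exact hre h
  have aru : ¬ G.Adj r1 u := by
    rw [hsym, nu]
    rintro (h | h | h)
    · exact ntf cr1 cv h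
    · exact hra h
    · exact hrb h
  have aza : ¬ G.Adj z a := by
    rw [hsym, na]
    rintro (h | h | h)
    · exact hzu h
    · exact hzt1 h
    · exact hzt2 h
  have apt2 : ¬ G.Adj p1 t2 := by
    rw [np]
    rintro (h | h | h)
    · exact ntf cr1 ct2 h.symm
    · exact hgt h.symm
    · exact hzt2 h.symm
  have apm : ¬ G.Adj p1 m := by
    rw [np]
    rintro (h | h | h)
    · exact ntf cr1 cm h.symm
    · exact hmg h
    · exact hzm h.symm
  have apv : ¬ G.Adj p1 v := by
    rw [np]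
    rintro (h | h | h)
    · exact ntf cr1 cv h.symm
    · exact hgv h.symm
    · exact hzv h.symm
  have apu : ¬ G.Adj p1 u := by
    rw [np]
    rintro (h | h | h)
    · exact ntf cr1 cu h.symm
    · exact hgu h.symm
    · exact hzu h.symm
  have apt1 : ¬ G.Adj p1 t1 := by
    rw [np]
    rintro (h | h | h)
    · exact ntf cr1 ct1 h.symm
    · exact hgt1 h.symm
    · exact hzt1 h.symm
  have aam : ¬ G.Adj a m := by
    rw [na]
    rintro (h | h | h)
    · exact hmu' h
    · exact hmt1 h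
    · exact hmt2 h
  have aav : ¬ G.Adj a v := by
    rw [na]
    rintro (h | h | h)
    · exact ruv.ne h.symm
    · exact hvt1 h
    · exact hvt2 h
  have aag : ¬ G.Adj a g := by
    rw [na]
    rintro (h | h | h)
    · exact hgu h
    · exact hgt1 h
    · exact hgt h
  have n1 : g ≠ p1 := (ntf cp1 cg).symm
  have n2 : g ≠ a := (ntf ca cg).symm
  have n3 : p1 ≠ u := ntf cp1 cu
  have n4 : p1 ≠ t1 := ntf cp1 ct1
  have n5 : u ≠ a := (ntf ca cu).symm
  have n6 : a ≠ t1 := ntf ca ct1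
  have mX : ∀ z, z ∈ ([g, p1, u, a, t1].toFinset : Finset V) ↔
      z = g ∨ z = p1 ∨ z = u ∨ z = a ∨ z = t1 := by
    intro z
    simp
  have mg1 : mu G c g = 1 := mu_of_rm hm rgm
  have mp1 : mu G c p1 = 1 := mu_of_rm hm q1.symm
  have mu1 : mu G c u = 1 := mu_of_rm hm ruv
  have mt1 : mu G c t1 = 1 := mu_of_rm hm rtt
  refine Pcrit hG hO [g, p1, u, a, t1] (by simp [n1, hgu, n2, hgt1, n3, hpa, n4, n5, nut1, n6]) 1
    (by simp [dl_cons, dl_nil, cg, cp1, cu, ca, ct1]) (by norm_num) (by exact_mod_cast hj) ?_ ?_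
  · simp only [cl_cons, cl_nil, List.map_cons, List.map_nil, List.sum_cons, List.sum_nil, mg1, mp1,
      mu1, mt1, K.ta.2]
    have e1 : sf G c g p1 = 1 := sf_adj apg.symm (by rw [cg, cp1]; decide)
    have e2 : 0 ≤ sf G c g u := sf_nrm (fun h => hgv (uq u g v h.symm ruv))
    have e3 : sf G c g a = 0 := sf_nadj (fun h => aag h.symm)
    have e4 : 0 ≤ sf G c g t1 := sf_nrm (fun h => hgt (uq t1 g t2 h.symm rtt))
    have e5 : sf G c p1 u = 0 := sf_nadj apu
    have e6 : 0 ≤ sf G c p1 a := sf_nrm (fun h => hna _ h.symm)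
    have e7 : sf G c p1 t1 = 0 := sf_nadj apt1
    have e8 : sf G c u a = 1 := sf_adj ((nu a).2 (by simp)) (by rw [cu, ca]; decide)
    have e9 : 0 ≤ sf G c u t1 := sf_nrm (fun h => nut2 (uq t1 u t2 h.symm rtt))
    have e10 : sf G c a t1 = 1 := sf_adj ((na t1).2 (by simp)) (by rw [ct1, ca]; decide)
    push_cast
    linarith
  · intro w
    by_cases hw : w ∈ ([g, p1, u, a, t1].toFinset : Finset V)
    · rcases (mX w).1 hw with rfl | rfl | rfl | rfl | rfl
      · refine mu_le_one (z := e) fun y => ?_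
        rw [rm_in hw, hR, mX]
        grind
      · refine mu_le_one (z := z) fun y => ?_
        rw [rm_in hw, hR, mX]
        grind
      · refine mu_le_one (z := b) fun y => ?_
        rw [rm_in hw, hR, mX]
        grind
      · refine mu_le_one (z := t2) fun y => ?_
        rw [rm_in hw, hR, mX]
        grind
      · refine mu_le_one (z := r1) fun y => ?_
        rw [rm_in hw, hR, mX]
        grind
    by_cases we : w = e
    · subst we
      refine mu_le_one (z := g) fun y => ?_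
      rw [rm_out hw, mX]
      grind
    by_cases wz : w = z
    · subst wz
      refine mu_le_one (z := p1) fun y => ?_
      rw [rm_out hw, mX]
      grind
    by_cases wb : w = b
    · subst wb
      refine mu_le_one (z := u) fun y => ?_
      rw [rm_out hw, mX]
      grind
    by_cases wt : w = t2
    · subst wt
      refine mu_le_one (z := a) fun y => ?_
      rw [rm_out hw, mX]
      grind
    by_cases wr : w = r1
    · subst wr
      refine mu_le_one (z := t1) fun y => ?_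
      rw [rm_out hw, mX]
      grind
    refine out_le hm hw ?_
    intro x hx hwx
    have hxw := hwx.symm
    have hw' : w ≠ g ∧ w ≠ p1 ∧ w ≠ u ∧ w ≠ a ∧ w ≠ t1 := by
      refine ⟨?_, ?_, ?_, ?_, ?_⟩ <;> (intro h; exact hw ((mX w).2 (by simp [h])))
    obtain ⟨w1, w2, w3, w4, w5⟩ := hw'
    rcases (mX x).1 hx with rfl | rfl | rfl | rfl | rfl
    · rcases (ng w).1 hxw with h | h | h
      · rw [h, cg, cm]
      · exact absurd h w2
      · exact absurd h we
    · rcases (np w).1 hxw with h | h | h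
      · exact absurd h wr
      · exact absurd h w1
      · exact absurd h wz
    · rcases (nu w).1 hxw with h | h | h
      · rw [h, cu, cv]
      · exact absurd h w4
      · exact absurd h wb
    · rcases (na w).1 hxw with h | h | h
      · exact absurd h w3
      · exact absurd h w5
      · exact absurd h wt
    · rcases (nt1 w).1 hxw with h | h | h
      · exact absurd h wt
      · exact absurd h w4
      · exact absurd h wr

/-- one `S`-neighbour of a `Q`-vertex which is no apex: the third neighbour is of type `B` -/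
theorem third_B (hG : G.IsRegularOfDegree 3) {j : ℕ} (hj : 1 ≤ j) (hO : Opt G c j) {p r g z : V}
    (hr : Rm G c p r) (cp : c p = true) (h3 : N3 G p r g z) (hg : tS G c g)
    (hna : ¬ Pool.Agent.Helper96.MC.Apx G c p) : tB G c z := by
  have hm := hO.mu1
  have tp : tQ G c p := ⟨cp, mu_of_rm hm hr⟩
  have cz : c z = false := by
    cases hc : c z
    · rfl
    · exact absurd (rm_uniq (hm p) hr ⟨(h3.nb z).2 (by simp), by rw [hc, cp]⟩) h3.xz
  rcases tB_or_tS hm cz with h | h
  · exact h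
  · refine (hna ⟨g, z, tp, (h3.nb g).2 (by simp), (h3.nb z).2 (by simp), ?_, hg.1⟩).elim
    exact F1 hG hj hO tp hg h ((h3.nb g).2 (by simp)) ((h3.nb z).2 (by simp)) h3.yz

/-- GK0 -/
theorem gk0 (hG : G.IsRegularOfDegree 3) {j : ℕ} (hj : 1 ≤ j)
    (hC1 : Pool.Agent.Helper96.MC.ST_C1) (hC2 : Pool.Agent.Helper96.MC.ST_C2)
    (hc : Pool.Agent.Helper96.MC.CK G c j)
    {u v a b t1 t2 r1 r2 p1 p2 : V} (K : Khb G c u v a b t1 t2 r1 r2 p1 p2) :
    r1 ≠ r2 ∧ ¬ Pool.Agent.Helper96.MC.Apx G c r1 ∧ ¬ Pool.Agent.Helper96.MC.Apx G c p1 := by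
  have hm := hc.1.mu1
  have hra : r1 ≠ a := by
    rintro rfl
    exact nomate K.ta.2 _ K.q1
  have hra2 : r2 ≠ a := by
    rintro rfl
    exact nomate K.ta.2 _ K.q2
  have a1 : G.Adj t1 r1 := (K.h1.n3.nb r1).2 (by simp)
  have a2 : G.Adj t2 r2 := (K.h2.n3.nb r2).2 (by simp)
  have rtt : Rm G c t1 t2 := sv_rm K.h1
  have e0 : r1 ≠ r2 := by
    intro e
    rw [← e] at a2
    have hT : Tht G c r1 p1 t1 t2 a a := by
      refine ⟨by rw [K.q1.2, K.h1.cb], ?_, ?_, ?_⟩
      · exact n3_three hG K.q1.1 a1.symm a2.symm (ntf (by rw [K.q1.2, K.h1.cb]) K.h1.cs)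
          (ntf (by rw [K.q1.2, K.h1.cb]) K.h1.cm) rtt.ne
      · exact (sv_swap K.h1)
      · have := sv_swap K.h2
        rwa [← e] at this
    rcases hC1 V G hG c j hj hc r1 p1 t1 t2 a a (CF.tht_iff.1 hT) with h | h
    · rw [← h.1] at hT
      exact nomate K.ta.2 _ hT.rqp.symm
    · exact h.2.2 rfl
  have e1 : ¬ Pool.Agent.Helper96.MC.Apx G c r1 := by
    intro h
    obtain ⟨s, s', n, n', hT⟩ := CF.tht_of hG hm h K.q1
    have key : G.Adj t2 r1 := by
      rcases hT.corner K.h1.cs a1.symm with e | e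
      · have := rm_uniq (hm t1) rtt (e ▸ hT.rss)
        rw [this]
        exact hT.swap.qs.symm
      · have := rm_uniq (hm t1) rtt (e ▸ hT.rss.symm)
        rw [this]
        exact hT.qs.symm
    rcases (K.h2.n3.nb r1).1 key with h4 | h4 | h4
    · exact ntf K.h1.cb K.h1.cs h4
    · exact hra h4
    · exact e0 h4
  refine ⟨e0, e1, ?_⟩
  intro h
  rcases hC2 V G hG c j hj hc p1 r1 t1 a h K.q1.symm e1 a1.symm (sv_tS hm K.h1)
    ((K.h1.n3.nb a).2 (by simp)) hra.symm K.ta.1 with h4 | h4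
  · exact absurd (h4.2.symm.trans K.ta.2) (by norm_num)
  · obtain ⟨k, k', h5, h6⟩ := h4.2
    -- `k`, `k'` are `u`, `t2`
    have ruv := sv_rm K.hu
    have key : ∀ {k k' : V}, Rm G c k k' → k = u → k' = t2 → False := by
      rintro k k' h6 rfl rfl
      exact K.ha.n3.xy (rm_uniq (hm _) h6.symm rtt.symm)
    have hk : ∀ z, z = k ∨ z = k' → G.Adj a z ∧ z ≠ t1 := by
      rintro z (rfl | rfl)
      · exact ⟨(h5.nb _).2 (by simp), h5.xy.symm⟩
      · exact ⟨(h5.nb _).2 (by simp), h5.xz.symm⟩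
    have hk1 : ∀ z, z = k ∨ z = k' → z = u ∨ z = t2 := by
      intro z hz
      obtain ⟨g1, g2⟩ := hk z hz
      rcases (K.ha.n3.nb z).1 g1 with g | g | g
      · exact Or.inl g
      · exact absurd g g2
      · exact Or.inr g
    rcases hk1 k (Or.inl rfl) with g1 | g1 <;> rcases hk1 k' (Or.inr rfl) with g2 | g2
    · exact h5.yz (g1.trans g2.symm)
    · exact key h6 g1 g2
    · exact key h6.symm g2 g1
    · exact h5.yz (g1.trans g2.symm)

/-- GEX: `q` an apex, its mate `p` no apex, `t` in `T1` adjacent to `p`: the `A`-neighbour `e` of `t`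
has two further neighbours which are mates in `S`, and not both corners of `q` are in `T1`. -/
theorem gex (hG : G.IsRegularOfDegree 3) {j : ℕ} (hj : 1 ≤ j)
    (hC2 : Pool.Agent.Helper96.MC.ST_C2) (hC7 : Pool.Agent.Helper96.MC.ST_C7)
    (hc : Pool.Agent.Helper96.MC.Exm G c j) {q p t m e : V}
    (hq : Pool.Agent.Helper96.MC.Apx G c q) (hr : Rm G c q p)
    (hp : ¬ Pool.Agent.Helper96.MC.Apx G c p) (ht : Sv G c t m p e) (he : tA G c e) :
    (∃ k k', Av G c e t k k' ∧ Rm G c k k') ∧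
      ∀ x x' n n', Pool.Agent.Helper96.MC.Td G c q p x x' n n' → ¬ (tA G c n ∧ tA G c n') := by
  have hm := hc.ck.1.mu1
  have atp : G.Adj p t := ((ht.n3.nb p).2 (by simp)).symm
  have ate : G.Adj t e := (ht.n3.nb e).2 (by simp)
  have hep : e ≠ p := ht.n3.yz.symm
  have hPm : Pool.Agent.Helper96.MC.Pm G c e t := by
    rcases hC2 V G hG c j hj hc.ck q p t e hq hr hp atp (sv_tS hm ht) ate hep ht.cb with h4 | h4
    · exact absurd (h4.2.symm.trans he.2) (by norm_num)
    · exact h4.2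
  refine ⟨?_, ?_⟩
  · obtain ⟨k, k', h5, h6⟩ := hPm
    have key : ∀ z, G.Adj e z → c z = false := by
      intro z hz
      cases h7 : c z
      · rfl
      · exact absurd ⟨hz, by rw [h7, he.1]⟩ (nomate he.2 z)
    exact ⟨k, k', ⟨he.1, ht.cs, key k ((h5.nb k).2 (by simp)), key k' ((h5.nb k').2 (by simp)), h5⟩,
      h6⟩
  · intro x x' n n' hT
    exact (hC7 V G hG c j hj hc q p x x' n n' t e hT hp atp (sv_tS hm ht) ate hep he hPm).2

end

end Pool.Agent.Helper91.MC.GK
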