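import Pool.Agent.Helper64.MC.St1
import Pool.Agent.Helper64.MC.Ops
import Pool.Agent.Helper51.MC.NB

/-!
MP_4042d8_co, rows X_PA, X_PB, X_PD: pairs of an `L` and a `U` with disjoint territories.
-/

namespace Pool.Agent.Helper91.MC

open Pool.Agent.Helper27.MC Pool.Agent.Helper51.MC Pool.Agent.Helper88.MC Pool.Agent.Helper64.MC

set_option autoImplicit false
set_option linter.unusedSectionVars false

section

variable {V : Type} [Fintype V] [DecidableEq V] {G : SimpleGraph V} [DecidableRel G.Adj]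
  {c : V → Bool}

/-- the data of a vertex of type `S` -/
theorem s_data (hG : G.IsRegularOfDegree 3) {s : V} (hs : tS G c s) :
    ∃ m a b : V, (∀ w, G.Adj s w ↔ w = m ∨ w = a ∨ w = b) ∧ c m = false ∧ c a = true ∧
      c b = true ∧ a ≠ b ∧ m ≠ a ∧ m ≠ b := by
  obtain ⟨m, a, b, h1, h2, h3, nb, cm, ca, cb⟩ := (NB V G hG c s).1 hs.2
  rw [hs.1] at cm ca cb
  exact ⟨m, a, b, nb, cm, ca, cb, h3, h1, h2⟩

theorem mem_Fr {s : V} : s ∈ Fr G c ↔ tS G c s ∧ nQ G c s = 0 := by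
  unfold Fr
  rw [Finset.mem_filter]
  simp

theorem mem_T1 {s : V} : s ∈ T1 G c ↔ tS G c s ∧ nQ G c s = 1 := by
  unfold T1
  rw [Finset.mem_filter]
  simp

/-- the data of a free vertex -/
theorem fr_data (hG : G.IsRegularOfDegree 3) (hm : ∀ v, mu G c v ≤ 1) {s : V} (hs : s ∈ Fr G c) :
    ∃ m a b : V, (∀ w, G.Adj s w ↔ w = m ∨ w = a ∨ w = b) ∧ c s = false ∧ c m = false ∧
      c a = true ∧ c b = true ∧ a ≠ b ∧ mu G c a = 0 ∧ mu G c b = 0 := by
  obtain ⟨h1, h2⟩ := mem_Fr.1 hs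
  obtain ⟨m, a, b, nb, cm, ca, cb, hab, _, _⟩ := s_data hG h1
  unfold nQ at h2
  rw [Finset.card_eq_zero, Finset.filter_eq_empty_iff] at h2
  have z : ∀ x, G.Adj s x → c x = true → mu G c x = 0 := by
    intro x hx hc
    have h3 := h2 (Finset.mem_univ x)
    have h4 := hm x
    by_contra h5
    exact h3 ⟨hx, hc, by omega⟩
  exact ⟨m, a, b, nb, h1.1, cm, ca, cb, hab, z a ((nb a).2 (Or.inr (Or.inl rfl))) ca,
    z b ((nb b).2 (Or.inr (Or.inr rfl))) cb⟩

/-- the data of a vertex of type `T1` -/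
theorem t1_data (hG : G.IsRegularOfDegree 3) (hm : ∀ v, mu G c v ≤ 1) {s : V}
    (hs : s ∈ T1 G c) :
    ∃ m a b : V, (∀ w, G.Adj s w ↔ w = m ∨ w = a ∨ w = b) ∧ c s = false ∧ c m = false ∧
      c a = true ∧ c b = true ∧ a ≠ b ∧ mu G c a = 0 ∧ mu G c b = 1 := by
  obtain ⟨h1, h2⟩ := mem_T1.1 hs
  obtain ⟨m, a, b, nb, cm, ca, cb, hab, _, _⟩ := s_data hG h1
  unfold nQ at h2
  obtain ⟨q, hq⟩ := Finset.card_eq_one.1 h2
  have hq1 : ∀ w, (G.Adj s w ∧ tQ G c w) ↔ w = q := by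
    intro w
    have : w ∈ Finset.univ.filter (fun w => G.Adj s w ∧ tQ G c w) ↔ w = q := by
      rw [hq]
      simp
    rw [← this, Finset.mem_filter]
    simp
  have hq2 := (hq1 q).2 rfl
  have z : ∀ x, G.Adj s x → c x = true → x ≠ q → mu G c x = 0 := by
    intro x hx hc hne
    have h4 := hm x
    by_contra h5
    exact hne ((hq1 x).1 ⟨hx, hc, by omega⟩)
  have adjA := (nb a).2 (Or.inr (Or.inl rfl))
  have adjB := (nb b).2 (Or.inr (Or.inr rfl))
  rcases (nb q).1 hq2.1 with h | h | h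
  · have h3 := hq2.2.1
    rw [h, cm] at h3
    cases h3
  · subst h
    refine ⟨m, b, q, fun w => (nb w).trans (by tauto), h1.1, cm, cb, ca, hab.symm,
      z b adjB cb hab.symm, hq2.2.2⟩
  · subst h
    exact ⟨m, a, q, nb, h1.1, cm, ca, cb, hab, z a adjA ca hab, hq2.2.2⟩

/-- disjoint territories of an `L` and a `U` -/
theorem ter_LU (hm : ∀ v, mu G c v ≤ 1) {u m a b x y : V} (S : Slot G c u m a b x y)
    {s m' a' b' : V} (cs : c s = false) (cm : c m' = false) (ca : c a' = true) (cb : c b' = true)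
    (nb : ∀ w, G.Adj s w ↔ w = m' ∨ w = a' ∨ w = b') (h1 : s ≠ u) (h2 : s ≠ m) (h3 : s ≠ x)
    (h4 : s ≠ y) (h5 : ¬ Rm G c x s) (h6 : ¬ Rm G c y s) (h7 : ¬ G.Adj s b) :
    Disjoint (ter G c {u, a}) (ter G c {s}) := by
  have rs : Rm G c s m' := ⟨(nb m').2 (Or.inl rfl), by rw [cm, cs]⟩
  have key : ∀ f, c f = false → f ≠ s → ¬ Rm G c f s → ∀ x' ∈ cn G {s}, f ≠ x' ∧ ¬ Rm G c f x' := by
    intro f hf hfs hn x' hx'
    rcases (U_mem nb x').1 hx' with h | h | h | h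
    · subst h
      exact ⟨hfs, hn⟩
    · subst h
      refine ⟨?_, ?_⟩
      · rintro rfl
        exact hn rs.symm
      · intro h
        exact hfs (rm_uniq (hm x') h.symm rs.symm)
    · subst h
      refine ⟨?_, ?_⟩
      · rintro rfl
        rw [hf] at ca
        cases ca
      · intro h
        have h8 := h.2
        rw [hf, ca] at h8
        cases h8
    · subst h
      refine ⟨?_, ?_⟩
      · rintro rfl
        rw [hf] at cb
        cases cb
      · intro h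
        have h8 := h.2
        rw [hf, cb] at h8
        cases h8
  have key2 : ∀ f, c f = true → mu G c f = 0 → ¬ G.Adj s f →
      ∀ x' ∈ cn G {s}, f ≠ x' ∧ ¬ Rm G c f x' := by
    intro f hf hf0 hn x' hx'
    refine ⟨?_, fun h => nomate hf0 x' h⟩
    rcases (U_mem nb x').1 hx' with h | h | h | h
    · subst h
      rintro rfl
      rw [hf] at cs
      cases cs
    · subst h
      rintro rfl
      rw [hf] at cm
      cases cm
    · subst h
      rintro rfl
      exact hn ((nb f).2 (Or.inr (Or.inl rfl)))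
    · subst h
      rintro rfl
      exact hn ((nb f).2 (Or.inr (Or.inr rfl)))
  have hum : ¬ Rm G c u s := fun h => h2 (rm_uniq (hm u) h S.um)
  have hmu' : ¬ Rm G c m s := fun h => h1 (rm_uniq (hm m) h S.um.symm)
  have hna : ¬ G.Adj s a := by
    intro h
    rcases (S.nba s).1 h.symm with h | h | h
    · exact h1 h
    · exact h3 h
    · exact h4 h
  refine ter_disj hm ?_
  intro z hz
  rcases (L_mem S z).1 hz with h | h | h | h | h | h
  · rw [h]
    exact key u S.cu h1.symm hum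
  · rw [h]
    exact key2 a S.ca S.ma hna
  · rw [h]
    exact key m S.cm h2.symm hmu'
  · rw [h]
    exact key2 b S.cb S.mb h7
  · rw [h]
    exact key x S.cx h3.symm h5
  · rw [h]
    exact key y S.cy h4.symm h6

/-- `x` without mate other than `u`: it is not `s` and not the mate of `s` -/
theorem nomate_x (hm : ∀ v, mu G c v ≤ 1) {u m a b x y : V} (S : Slot G c u m a b x y)
    (hx : ∀ w, Rm G c x w → w = u) {s m' : V} (rs : Rm G c s m') (h1 : s ≠ u) (h2 : s ≠ m) :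
    s ≠ x ∧ ¬ Rm G c x s := by
  refine ⟨?_, fun h => h1 (hx s h)⟩
  rintro rfl
  have h3 := hx m' rs
  rw [h3] at rs
  exact h2 (rm_uniq (hm u) rs.symm S.um)

end

/-- row X_PA -/
theorem st_PA : ST_PA := by
  intro V _ _ G _ hG c hm u m a b x y s S hx hy hs h1 h2 h3
  obtain ⟨m', a', b', nb, cs, cm, ca, cb, hab, ma, mb⟩ := fr_data hG hm hs
  have rs : Rm G c s m' := ⟨(nb m').2 (Or.inl rfl), by rw [cm, cs]⟩
  obtain ⟨x1, x2⟩ := nomate_x hm S hx rs h1 h2
  obtain ⟨y1, y2⟩ := nomate_x hm S.symm hy rs h1 h2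
  exact PAIR hm (L3 S hm hx hy) (U3 hm cs nb cm ca cb hab ma mb)
    (ter_LU hm S cs cm ca cb nb h1 h2 x1 y1 x2 y2 h3)

/-- row X_PB -/
theorem st_PB : ST_PB := by
  intro V _ _ G _ hG c hm u m a b x y r s S hx hr hru hs h1 h2 h3 h4
  obtain ⟨m', a', b', nb, cs, cm, ca, cb, hab, ma, mb⟩ := t1_data hG hm hs
  obtain ⟨q, hq⟩ := exists_mate mb
  have rs : Rm G c s m' := ⟨(nb m').2 (Or.inl rfl), by rw [cm, cs]⟩
  have hsu : s ≠ u := by
    rintro rfl
    rcases (S.nbu b').1 ((nb b').2 (Or.inr (Or.inr rfl))) with h | h | h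
    · rw [h, S.cm] at cb
      cases cb
    · rw [h, S.ma] at mb
      omega
    · rw [h, S.mb] at mb
      omega
  obtain ⟨x1, x2⟩ := nomate_x hm S hx rs hsu h3
  have y2 : ¬ Rm G c y s := fun h => h2 (rm_uniq (hm y) h hr)
  exact PAIR hm (L4 S hm hx hr hru) (U4 hm cs nb cm ca cb hab ma hq)
    (ter_LU hm S cs cm ca cb nb hsu h3 x1 h1 x2 y2 h4)

/-- the `A`-vertex of `Av` has no mate -/
theorem av_mu {V : Type} [Fintype V] [DecidableEq V] {G : SimpleGraph V} [DecidableRel G.Adj]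
    {c : V → Bool} {a x y z : V} (h : Av G c a x y z) : mu G c a = 0 := by
  refine mu_eq_zero ?_
  rintro w ⟨h1, h2⟩
  rw [h.ca] at h2
  rcases (h.n3.nb w).1 h1 with h3 | h3 | h3
  · rw [h3, h.cx] at h2
    cases h2
  · rw [h3, h.cy] at h2
    cases h2
  · rw [h3, h.cz] at h2
    cases h2

theorem sv_rm {V : Type} [Fintype V] [DecidableEq V] {G : SimpleGraph V} [DecidableRel G.Adj]
    {c : V → Bool} {s m a b : V} (h : Sv G c s m a b) : Rm G c s m :=
  ⟨(h.n3.nb m).2 (Or.inl rfl), by rw [h.cm, h.cs]⟩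

/-- the slot `(s1, a)` of a 3-hub -/
theorem hub_slot {V : Type} [Fintype V] [DecidableEq V] {G : SimpleGraph V} [DecidableRel G.Adj]
    {c : V → Bool} {a s1 s2 s3 v1 v2 v3 p1 p2 p3 : V}
    (H : Hub3 G c a s1 s2 s3 v1 v2 v3 p1 p2 p3) (hp : mu G c p1 = 0) :
    Slot G c s1 v1 a p1 s2 s3 :=
  ⟨H.h1.cs, H.h1.cm, H.h1.ca, H.h1.cb, av_mu H.av, hp, H.h1.n3.yz, H.h1.n3.nb, H.av.n3.nb,
    H.av.n3.yz, H.av.n3.xy.symm, H.av.n3.xz.symm⟩

/-- row X_PD -/
theorem st_PD : ST_PD := by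
  intro V _ _ G _ hG c hm a s1 s2 s3 v1 v2 v3 p1 p2 p3 s m q q' H hp hs hq hq' hn h1 h2 h3
  have S := hub_slot H hp.2
  have ha := av_mu H.av
  obtain ⟨p, hpp⟩ := exists_mate hq.2
  obtain ⟨p', hpp'⟩ := exists_mate hq'.2
  have hna : ∀ f, c f = true → mu G c f = 0 → ¬ G.Adj s f := by
    intro f hf hf0 h
    rcases (hs.n3.nb f).1 h with h | h | h
    · rw [h, hs.cm] at hf
      cases hf
    · rw [h, hq.2] at hf0
      omega
    · rw [h, hq'.2] at hf0
      omega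
  have hsa := hna a H.av.ca ha
  have n1 : s ≠ s1 := by
    rintro rfl
    exact hsa ((H.av.n3.nb s).2 (Or.inl rfl)).symm
  have n2 : s ≠ s2 := by
    rintro rfl
    exact hsa ((H.av.n3.nb s).2 (Or.inr (Or.inl rfl))).symm
  have n3 : s ≠ s3 := by
    rintro rfl
    exact hsa ((H.av.n3.nb s).2 (Or.inr (Or.inr rfl))).symm
  have r2 := sv_rm H.h2
  have r3 := sv_rm H.h3
  have m2 : ¬ Rm G c s2 s := fun h => h2 (rm_uniq (hm s2) h r2)
  have m3 : ¬ Rm G c s3 s := fun h => h3 (rm_uniq (hm s3) h r3)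
  have hv2 : v2 ≠ s1 := by
    rintro rfl
    exact H.n12 r2.symm
  have hv3 : v3 ≠ s1 := by
    rintro rfl
    exact H.n13 r3.symm
  have hv23 : v2 ≠ s3 := by
    rintro rfl
    exact H.n23 r2
  have hpb : p ≠ q' := by
    rintro rfl
    exact hn hpp.1
  exact PAIR hm (L5 S hm r2 hv2 r3 hv3 hv23)
    (U5 hm hs.cs hs.n3.nb hs.cm hs.ca hs.cb hs.n3.yz hpp hpp' hpb)
    (ter_LU hm S hs.cs hs.cm hs.ca hs.cb hs.n3.nb n1 h1 n2 n3 m2 m3 (hna p1 hp.1 hp.2))

end Pool.Agent.Helper91.MC
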