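import Pool.Agent.Helper33.MC.St
import Pool.Agent.Helper91.MC.PA

/-!
MP_4042d8_co, rows D_PH, D_INV, D_COMB, D_J.
-/

namespace Pool.Agent.Helper91.MC

open Pool.Agent.Helper27.MC Pool.Agent.Helper51.MC Pool.Agent.Helper88.MC Pool.Agent.Helper64.MC
open Pool.Agent.Helper33.MC

set_option autoImplicit false
set_option linter.unusedSectionVars false

section

variable {V : Type} [Fintype V] [DecidableEq V] {G : SimpleGraph V} [DecidableRel G.Adj]
  {c : V → Bool}

/-! ### D_INV -/

/-- adding vertices which are not of type `Q` -/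
theorem inv_add {H K : Finset V} (h : Inv G c H) (hK : ∀ v ∈ K, ¬ tQ G c v) :
    Inv G c (H ∪ K) := by
  intro q q' hq hr hqH
  rcases Finset.mem_union.1 hqH with h1 | h1
  · exact Finset.mem_union_left _ (h q q' hq hr h1)
  · exact (hK q h1 hq).elim

theorem not_tQ_false {v : V} (h : c v = false) : ¬ tQ G c v := by
  intro h'
  have h1 := h'.1
  rw [h] at h1
  cases h1

theorem not_tQ_A {v : V} (h : tA G c v) : ¬ tQ G c v := by
  intro h'
  have h1 := h.2
  have h2 := h'.2
  omega

theorem inv_U {H H' : Finset V} (h : Inv G c H) (ho : OpU G c H H') : Inv G c H' := by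
  obtain ⟨s, m, a, b, hs, ha, hb, _, rfl⟩ := ho
  refine inv_add h ?_
  intro v hv
  simp only [Finset.mem_insert, Finset.mem_singleton] at hv
  rcases hv with rfl | rfl | rfl
  · exact not_tQ_false hs.cs
  · exact not_tQ_A ha
  · exact not_tQ_A hb

theorem inv_N {H H' : Finset V} (h : Inv G c H) (ho : OpN G c H H') : Inv G c H' := by
  obtain ⟨u, v, a, b, x, y, hu, hav, ha, hb, _, _, _, _, rfl⟩ := ho
  refine inv_add h ?_
  intro z hz
  simp only [Finset.mem_insert, Finset.mem_singleton] at hz
  rcases hz with rfl | rfl | rfl | rfl | rfl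
  · exact not_tQ_false hu.cs
  · exact not_tQ_A hb
  · exact not_tQ_false hav.cy
  · exact not_tQ_A ha
  · exact not_tQ_false hav.cz

theorem inv_M {H H' : Finset V} (h : Inv G c H) (ho : OpM G c H H') : Inv G c H' := by
  obtain ⟨u, v, a, b, x, t, r, hu, hav, ha, hb, _, _, _, hr, _, _, rfl⟩ := ho
  refine inv_add h ?_
  intro z hz
  simp only [Finset.mem_insert, Finset.mem_singleton] at hz
  rcases hz with rfl | rfl | rfl | rfl | rfl | rfl
  · exact not_tQ_false hu.cs
  · exact not_tQ_A hb
  · exact not_tQ_false hav.cy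
  · exact not_tQ_A ha
  · exact not_tQ_false hav.cz
  · exact not_tQ_false (hr.2.trans hav.cz)

theorem inv_V (hm : ∀ v, mu G c v ≤ 1) {H H' : Finset V} (h : Inv G c H) (ho : OpV G c H H') :
    Inv G c H' := by
  obtain ⟨t, r, a, q, q', ht, ha, hq, hqq, _, _, rfl⟩ := ho
  intro z z' hz hr hzH
  rcases Finset.mem_union.1 hzH with h1 | h1
  · exact Finset.mem_union_left _ (h z z' hz hr h1)
  · refine Finset.mem_union_right _ ?_
    simp only [Finset.mem_insert, Finset.mem_singleton] at h1 ⊢
    rcases h1 with rfl | rfl | rfl | rfl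
    · exact (not_tQ_false ht.cs hz).elim
    · exact (not_tQ_A ha hz).elim
    · exact Or.inr (Or.inr (Or.inr (rm_uniq (hm z) hr hqq)))
    · exact Or.inr (Or.inr (Or.inl (rm_uniq (hm z) hr hqq.symm)))

theorem inv_run (hm : ∀ v, mu G c v ≤ 1) {i k : ℕ} {H : Finset V} (h : Run G c i k H) :
    Inv G c H := by
  induction h with
  | start =>
      intro q q' _ _ hq
      simp at hq
  | n _ ho ih => exact inv_N ih ho
  | un _ h1 h2 ih => exact inv_N (inv_U ih h1) h2
  | mv _ h1 h2 ih => exact inv_V hm (inv_M ih h1) h2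
  | u _ ho ih => exact inv_U ih ho

/-! ### D_PH -/

theorem mem_live {H : Finset V} {f : V} : f ∈ live G c H ↔ Live G c H f := by
  classical
  simp [live]

/-- the other free neighbours of the `A`-neighbours of a free vertex: at most one -/
theorem partner_uniq (hF : Fx G c) {s m a b : V} (hs : Sv G c s m a b) (ha : tA G c a)
    (hb : tA G c b) (hsF : s ∈ Fr G c) {f g : V} (hf : f ∈ Fr G c) (hfs : f ≠ s)
    (hfa : G.Adj a f ∨ G.Adj b f) (hg : g ∈ Fr G c) (hgs : g ≠ s)
    (hga : G.Adj a g ∨ G.Adj b g) : f = g := by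
  have hsa : G.Adj a s := ((hs.n3.nb a).2 (Or.inr (Or.inl rfl))).symm
  have hsb : G.Adj b s := ((hs.n3.nb b).2 (Or.inr (Or.inr rfl))).symm
  -- a free neighbour of `a` is adjacent to `b` and conversely
  have key : ∀ f, f ∈ Fr G c → f ≠ s → (G.Adj a f ∨ G.Adj b f) → G.Adj a f := by
    intro f hf hfs h
    rcases h with h | h
    · exact h
    · obtain ⟨b', v1, v2, w1, w2, hq⟩ := hF.f3 b s f hb hsF hf hfs.symm hsb h
      have h1 : G.Adj s b' := (hq.h1.n3.nb b').2 (Or.inr (Or.inr rfl))
      have h2 : b' = a := by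
        rcases (hs.n3.nb b').1 h1 with h3 | h3 | h3
        · have h4 := hq.h1.cb
          rw [h3, hs.cm] at h4
          cases h4
        · exact h3
        · exact (hq.h1.n3.yz h3.symm).elim
      rw [← h2]
      exact ((hq.h2.n3.nb b').2 (Or.inr (Or.inr rfl))).symm
  have h1 := key f hf hfs hfa
  have h2 := key g hg hgs hga
  have t1 := (mem_Fr.1 hsF).1
  have t2 := (mem_Fr.1 hf).1
  have t3 := (mem_Fr.1 hg).1
  rcases hF.f2 a s f g ha t1 t2 t3 hsa h1 h2 with h | h | h
  · exact (hfs h.symm).elim
  · exact (hgs h.symm).elim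
  · exact h

theorem ph_step (hF : Fx G c) {H : Finset V} {s : V} (hs : Live G c H s) :
    ∃ H', OpU G c H H' ∧ (live G c H \ live G c H').card ≤ 3 := by
  obtain ⟨m, a, b, nb, cs, cm, ca, cb, hab, ma, mb⟩ := fr_data hF.reg hF.mu1 hs.1
  have hma : m ≠ a := by
    rintro rfl
    rw [cm] at ca
    cases ca
  have hmb : m ≠ b := by
    rintro rfl
    rw [cm] at cb
    cases cb
  have hsv : Sv G c s m a b := ⟨cs, cm, ca, cb, ⟨nb, hma, hmb, hab⟩⟩
  have ta : tA G c a := ⟨ca, ma⟩
  have tb : tA G c b := ⟨cb, mb⟩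
  refine ⟨H ∪ {s, a, b}, ⟨s, m, a, b, hsv, ta, tb, hs.2, rfl⟩, ?_⟩
  set P : Finset V := Finset.univ.filter (fun f => f ∈ Fr G c ∧ f ≠ s ∧ (G.Adj a f ∨ G.Adj b f))
    with hP
  have hPc : P.card ≤ 1 := by
    refine Finset.card_le_one.2 ?_
    intro f hf g hg
    rw [hP, Finset.mem_filter] at hf hg
    exact partner_uniq hF hsv ta tb hs.1 hf.2.1 hf.2.2.1 hf.2.2.2 hg.2.1 hg.2.2.1 hg.2.2.2
  have hsub : live G c H \ live G c (H ∪ {s, a, b}) ⊆ ({s, m} : Finset V) ∪ P := by
    intro f hf
    rw [Finset.mem_sdiff, mem_live, mem_live] at hf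
    obtain ⟨h1, h2⟩ := hf
    rw [Finset.mem_union]
    by_cases hfs : f = s
    · exact Or.inl (by rw [hfs]; simp)
    have cf : c f = false := (mem_Fr.1 h1.1).1.1
    -- some member of the closed neighbourhood of `f` is new
    have h3 : ∃ w, (w = f ∨ G.Adj f w) ∧ (w = s ∨ w = a ∨ w = b) := by
      by_contra hn
      push Not at hn
      refine h2 ⟨h1.1, ?_, ?_⟩
      · intro h4
        rcases Finset.mem_union.1 h4 with h4 | h4
        · exact h1.2.1 h4
        · simp only [Finset.mem_insert, Finset.mem_singleton] at h4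
          obtain ⟨e1, e2, e3⟩ := hn f (Or.inl rfl)
          rcases h4 with h4 | h4 | h4
          · exact e1 h4
          · exact e2 h4
          · exact e3 h4
      · intro w hw h4
        rcases Finset.mem_union.1 h4 with h4 | h4
        · exact h1.2.2 w hw h4
        · simp only [Finset.mem_insert, Finset.mem_singleton] at h4
          obtain ⟨e1, e2, e3⟩ := hn w (Or.inr hw)
          rcases h4 with h4 | h4 | h4
          · exact e1 h4
          · exact e2 h4
          · exact e3 h4
    obtain ⟨w, hw, hw'⟩ := h3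
    rcases hw with rfl | hw
    · rcases hw' with h | h | h
      · exact (hfs h).elim
      · rw [h, ca] at cf
        cases cf
      · rw [h, cb] at cf
        cases cf
    · rcases hw' with h | h | h
      · subst h
        rcases (nb f).1 hw.symm with h | h | h
        · exact Or.inl (by rw [h]; simp)
        · rw [h, ca] at cf
          cases cf
        · rw [h, cb] at cf
          cases cf
      · subst h
        refine Or.inr ?_
        rw [hP, Finset.mem_filter]
        exact ⟨Finset.mem_univ _, h1.1, hfs, Or.inl hw.symm⟩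
      · subst h
        refine Or.inr ?_
        rw [hP, Finset.mem_filter]
        exact ⟨Finset.mem_univ _, h1.1, hfs, Or.inr hw.symm⟩
  have h1 := Finset.card_le_card hsub
  have h2 := Finset.card_union_le ({s, m} : Finset V) P
  have h3 : ({s, m} : Finset V).card ≤ 2 := Finset.card_le_two
  omega

/-! ### D_COMB -/

theorem card_loss {α : Type} [DecidableEq α] {A B : Finset α} {m : ℕ} (h : (A \ B).card ≤ m) :
    A.card ≤ B.card + m := by
  have h1 : A ⊆ B ∪ (A \ B) := by
    intro x hx
    rw [Finset.mem_union, Finset.mem_sdiff]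
    tauto
  have h2 := (Finset.card_le_card h1).trans (Finset.card_union_le _ _)
  omega

theorem phase2 (hP : ∀ (H : Finset V) (s : V), Live G c H s →
      ∃ H', OpU G c H H' ∧ (live G c H \ live G c H').card ≤ 3) {i : ℕ} :
    ∀ (k : ℕ) (H : Finset V), Run G c i k H → 3 * k ≤ (live G c H).card →
      ∃ H', Run G c i 0 H' := by
  intro k
  induction k with
  | zero => exact fun H h _ => ⟨H, h⟩
  | succ k ih =>
      intro H h hk
      have h1 : 0 < (live G c H).card := by omega
      obtain ⟨s, hs⟩ := Finset.card_pos.1 h1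
      obtain ⟨H', ho, hl⟩ := hP H s (mem_live.1 hs)
      have h2 := card_loss hl
      exact ih H' (Run.u h ho) (by omega)

end

/-- row D_INV -/
theorem st_DINV : ST_DINV := by
  intro V _ _ G _ c hF i k H h
  exact inv_run hF.mu1 h

/-- row D_PH -/
theorem st_DPH : ST_DPH := by
  intro V _ _ G _ c H hF s hs
  exact ph_step hF hs

/-- row D_COMB -/
theorem st_DCOMB (h1 : ST_DC1) (h2 : ST_DC2) (h3 : ST_DC3) (h4 : ST_DC4) (h5 : ST_DC5)
    (hst : ST_DST) : ST_DCOMB := by
  intro V _ _ G _ c j hF hj
  obtain ⟨g0, l0⟩ := hst V G c j hF hj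
  have key : ∀ i, i ≤ j → ∃ k H, Run G c i k H ∧ k ≤ i ∧ 12 * (j - i) ≤ (good G c H).card ∧
      6 * j ≤ (live G c H).card + 2 * k + 5 * (i - k) := by
    intro i
    induction i with
    | zero => exact fun _ => ⟨0, ∅, Run.start, le_refl _, by simpa using g0, by simpa using l0⟩
    | succ i ih =>
        intro hi
        obtain ⟨k, H, hr, hk, hg, hl⟩ := ih (by omega)
        have hinv := inv_run hF.mu1 hr
        by_cases c1 : PN G c H
        · obtain ⟨H', ho, lg, ll⟩ := h1 V G c H hF c1
          have e1 := card_loss lg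
          have e2 := card_loss ll
          exact ⟨k + 1, H', Run.n hr ho, by omega, by omega, by omega⟩
        by_cases c2 : P2 G c H
        · obtain ⟨H1, H', ho, ho', lg, ll⟩ := h2 V G c H hF hinv c1 c2
          have e1 := card_loss lg
          have e2 := card_loss ll
          exact ⟨k, H', Run.un hr ho ho', by omega, by omega, by omega⟩
        by_cases c3 : P3 G c H
        · obtain ⟨H1, H', ho, ho', lg, ll⟩ := h3 V G c H hF hinv c1 c2 c3
          have e1 := card_loss lg
          have e2 := card_loss ll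
          exact ⟨k, H', Run.un hr ho ho', by omega, by omega, by omega⟩
        by_cases c4 : P4 G c H
        · obtain ⟨H1, H', ho, ho', lg, ll⟩ := h4 V G c H hF hinv c1 c2 c3 c4
          have e1 := card_loss lg
          have e2 := card_loss ll
          exact ⟨k, H', Run.un hr ho ho', by omega, by omega, by omega⟩
        · obtain ⟨H1, H', ho, ho', lg, ll⟩ := h5 V G c H hF hinv c1 c2 c3 c4 (by omega)
          have e1 := card_loss lg
          have e2 := card_loss ll
          exact ⟨k, H', Run.mv hr ho ho', by omega, by omega, by omega⟩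
  obtain ⟨k, H, hr, hk, _, hl⟩ := key j (le_refl j)
  exact phase2 (fun H s hs => ph_step hF hs) k H hr (by omega)

/-- row D_J -/
theorem st_DJ (hX : ST_DFX) (hC : ST_DCOMB) (hS : ST_DSEQ) : ST_DJ := by
  intro V _ _ G _ hG hT c j hj hO
  have hF := hX V G hG hT c j hj hO
  obtain ⟨H, hr⟩ := hC V G c j hF hO.imb2
  exact hS V G hG c j hO.mu1 hO.imb2 H hr

end Pool.Agent.Helper91.MC
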