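import Pool.Agent.Helper33.MC.GBas
import Pool.Agent.Helper79.MC.Acc
import Pool.Agent.Helper91.MC.D1
import Pool.Agent.Helper96.MC.CSt

/-!
MP_4042d8_co, section D, part II: rows G_PH, G_INV, G_COMB, G_J.
-/

namespace Pool.Agent.Helper91.MC.DG

open Pool.Agent.Helper27.MC hiding Fr T1 ter
open Pool.Agent.Helper51.MC Pool.Agent.Helper88.MC Pool.Agent.Helper64.MC
open Pool.Agent.Helper33.MC
open Pool.Agent.Helper91.MC
open Pool.Agent.Helper79.MC (Sqg)
open Pool.Agent.Helper6.MC (KB OpK3 OpK4 OpKH RunG)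

set_option autoImplicit false
set_option linter.unusedSectionVars false

section

variable {V : Type} [Fintype V] [DecidableEq V] {G : SimpleGraph V} [DecidableRel G.Adj]
  {c : V → Bool} {j : ℕ} {L : V → V → Prop}

/-! ### G_INV -/

theorem rm_false {v w : V} (h : c v = false) (hr : Rm G c v w) : ¬ tQ G c w :=
  not_tQ_false (hr.2.trans h)

/-- the neighbours of `k` other than its mate are `false` -/
theorem nb_false (hm : ∀ v, mu G c v ≤ 1) {k q g : V} (hq : tQ G c q) (hr : Rm G c q k)
    (ha : G.Adj k g) (hn : g ≠ q) : c g = false := by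
  have ck : c k = true := hr.2.trans hq.1
  by_contra h
  have cg : c g = true := by simpa using h
  exact hn (rm_uniq (hm k) ⟨ha, cg.trans ck.symm⟩ hr.symm)

theorem kb_tQ {H : Finset V} {u v a b t t' q k : V} (hm : ∀ v, mu G c v ≤ 1)
    (K : KB G c H u v a b t t' q k) : tQ G c q := by
  refine ⟨K.st.cb, ?_⟩
  have h1 := hm q
  have h2 : mu G c q ≠ 0 := fun h => nomate h _ K.qk
  omega

/-- adding a set which contains the mates of its vertices of type `Q` -/
theorem inv_addQ {H K : Finset V} (h : Inv G c H)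
    (hK : ∀ v v', v ∈ K → tQ G c v → Rm G c v v' → v' ∈ K) : Inv G c (H ∪ K) := by
  intro q q' hq hr hqH
  rcases Finset.mem_union.1 hqH with h1 | h1
  · exact Finset.mem_union_left _ (h q q' hq hr h1)
  · exact Finset.mem_union_right _ (hK q q' h1 hq hr)

theorem inv_K3 (hm : ∀ v, mu G c v ≤ 1) {H H' : Finset V} (h : Inv G c H)
    (ho : OpK3 G c H H') : Inv G c H' := by
  obtain ⟨u, v, a, b, t, t', q, k, g1, g2, K, n3, _, _, rfl⟩ := ho
  have hq := kb_tQ hm K
  have c1 : c g1 = false := nb_false hm hq K.qk ((n3.nb g1).2 (by tauto)) n3.xy.symm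
  have c2 : c g2 = false := nb_false hm hq K.qk ((n3.nb g2).2 (by tauto)) n3.xz.symm
  refine inv_addQ h ?_
  intro z z' hz tz hr
  simp only [Finset.mem_insert, Finset.mem_singleton] at hz ⊢
  rcases hz with rfl | rfl | rfl | rfl | rfl | rfl | rfl | rfl | rfl
  · exact (not_tQ_false K.su.cs tz).elim
  · exact (not_tQ_A K.tb tz).elim
  · exact (not_tQ_A K.ta tz).elim
  · exact (not_tQ_false K.st.cm tz).elim
  · exact (not_tQ_false K.st.cs tz).elim
  · have e := rm_uniq (hm _) hr K.qk
    simp [e]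
  · have e := rm_uniq (hm _) hr K.qk.symm
    simp [e]
  · exact (not_tQ_false c1 tz).elim
  · exact (not_tQ_false c2 tz).elim

theorem inv_K4 (hm : ∀ v, mu G c v ≤ 1) {H H' : Finset V} (h : Inv G c H)
    (ho : OpK4 G c H H') : Inv G c H' := by
  obtain ⟨u, v, a, b, t, t', q, k, g1, g2, g3, K, n3, _, _, hg, _, _, rfl⟩ := ho
  have hq := kb_tQ hm K
  have c1 : c g1 = false := nb_false hm hq K.qk ((n3.nb g1).2 (by tauto)) n3.xy.symm
  have c2 : c g2 = false := nb_false hm hq K.qk ((n3.nb g2).2 (by tauto)) n3.xz.symm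
  refine inv_addQ h ?_
  intro z z' hz tz hr
  simp only [Finset.mem_insert, Finset.mem_singleton] at hz ⊢
  rcases hz with rfl | rfl | rfl | rfl | rfl | rfl | rfl | rfl | rfl | rfl
  · exact (not_tQ_false K.su.cs tz).elim
  · exact (not_tQ_A K.tb tz).elim
  · exact (not_tQ_A K.ta tz).elim
  · exact (not_tQ_false K.st.cm tz).elim
  · exact (not_tQ_false K.st.cs tz).elim
  · have e := rm_uniq (hm _) hr K.qk
    simp [e]
  · have e := rm_uniq (hm _) hr K.qk.symm
    simp [e]
  · exact (not_tQ_false c1 tz).elim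
  · exact (not_tQ_false c2 tz).elim
  · exact (rm_false c2 hg tz).elim

theorem inv_KH (hm : ∀ v, mu G c v ≤ 1) {H H' : Finset V} (h : Inv G c H)
    (ho : OpKH G c H H') : Inv G c H' := by
  obtain ⟨u, v, a, b, t, t', q, k, g, K, n3, _, rfl⟩ := ho
  have hq := kb_tQ hm K
  have c2 : c g = false := nb_false hm hq K.qk ((n3.nb g).2 (by tauto)) n3.xz.symm
  refine inv_addQ h ?_
  intro z z' hz tz hr
  simp only [Finset.mem_insert, Finset.mem_singleton] at hz ⊢
  rcases hz with rfl | rfl | rfl | rfl | rfl | rfl | rfl | rfl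
  · exact (not_tQ_false K.su.cs tz).elim
  · exact (not_tQ_A K.tb tz).elim
  · exact (not_tQ_A K.ta tz).elim
  · exact (not_tQ_false K.st.cm tz).elim
  · exact (not_tQ_false K.st.cs tz).elim
  · have e := rm_uniq (hm _) hr K.qk
    simp [e]
  · have e := rm_uniq (hm _) hr K.qk.symm
    simp [e]
  · exact (not_tQ_false c2 tz).elim

theorem inv_rung (hm : ∀ v, mu G c v ≤ 1) {i k : ℕ} {H : Finset V} (h : RunG G c i k H) :
    Inv G c H := by
  induction h with
  | start =>
      intro q q' _ _ hq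
      simp at hq
  | n _ ho ih => exact ho.elim (fun h => inv_N ih h) (fun h => inv_K3 hm ih h)
  | un _ h1 h2 ih => exact inv_N (inv_U ih h1) h2
  | mv _ h1 h2 ih =>
      refine inv_V hm ?_ h2
      rcases h1 with h1 | h1 | h1
      · exact inv_M ih h1
      · exact inv_K4 hm ih h1
      · exact inv_KH hm ih h1
  | u _ ho ih => exact inv_U ih ho

/-! ### G_PH -/

/-- the other free neighbours, different from the mate, of the `A`-neighbours of a free vertex: at
most one -/
theorem partner_uniqG (F : FxG G c j L) {s m a b : V} (hs : Sv G c s m a b) (ha : tA G c a)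
    (hb : tA G c b) (hsF : s ∈ Fr G c) {f g : V} (hf : f ∈ Fr G c) (hfs : f ≠ s) (hfm : f ≠ m)
    (hfa : G.Adj a f ∨ G.Adj b f) (hg : g ∈ Fr G c) (hgs : g ≠ s) (hgm : g ≠ m)
    (hga : G.Adj a g ∨ G.Adj b g) : f = g := by
  have hsa : G.Adj a s := ((hs.n3.nb a).2 (by tauto)).symm
  have hsb : G.Adj b s := ((hs.n3.nb b).2 (by tauto)).symm
  have key : ∀ f, f ∈ Fr G c → f ≠ s → f ≠ m → (G.Adj a f ∨ G.Adj b f) → G.Adj a f := by
    intro f hf hfs hfm h
    rcases h with h | h
    · exact h
    · have hn : ¬ Rm G c s f := fun h' => hfm (sv_mateG F hs h')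
      obtain ⟨b', v1, v2, w1, w2, hq⟩ := F.g1 b s f hb hsF hf hfs.symm hn hsb h
      have h1 : G.Adj s b' := (hq.h1.n3.nb b').2 (by tauto)
      have h2 : b' = a := by
        rcases (hs.n3.nb b').1 h1 with h3 | h3 | h3
        · have h4 := hq.h1.cb
          rw [h3, hs.cm] at h4
          cases h4
        · exact h3
        · exact (hq.h1.n3.yz h3.symm).elim
      rw [← h2]
      exact ((hq.h2.n3.nb b').2 (by tauto)).symm
  have h1 := key f hf hfs hfm hfa
  have h2 := key g hg hgs hgm hga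
  by_contra hne
  obtain ⟨x, y, hav⟩ := av_ex F.reg ha hsa
  have e : ∀ z, G.Adj a z → z ≠ s → z = x ∨ z = y := by
    intro z hz hzs
    rcases (hav.n3.nb z).1 hz with h3 | h3 | h3
    · exact (hzs h3).elim
    · exact Or.inl h3
    · exact Or.inr h3
  have hx : x ∈ Fr G c ∧ y ∈ Fr G c := by
    rcases e f h1 hfs with h3 | h3 <;> rcases e g h2 hgs with h4 | h4
    · exact (hne (h3.trans h4.symm)).elim
    · exact ⟨h3 ▸ hf, h4 ▸ hg⟩
    · exact ⟨h4 ▸ hg, h3 ▸ hf⟩
    · exact (hne (h3.trans h4.symm)).elim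
  exact F.g2 a s x y hav ha hsF hx.1 hx.2

theorem ph_stepG (F : FxG G c j L) {H : Finset V} {s : V} (hs : Live G c H s) :
    ∃ H', OpU G c H H' ∧ (live G c H \ live G c H').card ≤ 3 := by
  obtain ⟨m, a, b, nb, cs, cm, ca, cb, hab, ma, mb⟩ := fr_data F.reg F.mu1 hs.1
  have hma : m ≠ a := by
    rintro rfl
    rw [cm] at ca
    cases ca
  have hmb : m ≠ b := by
    rintro rfl
    rw [cm] at cb
    cases cb
  have hsv : Sv G c s m a b := ⟨cs, cm, ca, cb, ⟨nb, hma, hmb, hab⟩⟩
  have ta : tA G c a := ⟨ca, ma⟩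
  have tb : tA G c b := ⟨cb, mb⟩
  refine ⟨H ∪ {s, a, b}, ⟨s, m, a, b, hsv, ta, tb, hs.2, rfl⟩, ?_⟩
  set P : Finset V := Finset.univ.filter
    (fun f => f ∈ Fr G c ∧ f ≠ s ∧ f ≠ m ∧ (G.Adj a f ∨ G.Adj b f)) with hP
  have hPc : P.card ≤ 1 := by
    refine Finset.card_le_one.2 ?_
    intro f hf g hg
    rw [hP, Finset.mem_filter] at hf hg
    exact partner_uniqG F hsv ta tb hs.1 hf.2.1 hf.2.2.1 hf.2.2.2.1 hf.2.2.2.2 hg.2.1 hg.2.2.1
      hg.2.2.2.1 hg.2.2.2.2
  have hsub : live G c H \ live G c (H ∪ {s, a, b}) ⊆ ({s, m} : Finset V) ∪ P := by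
    intro f hf
    rw [Finset.mem_sdiff, mem_live, mem_live] at hf
    obtain ⟨h1, h2⟩ := hf
    rw [Finset.mem_union]
    by_cases hfs : f = s
    · exact Or.inl (by rw [hfs]; simp)
    by_cases hfm : f = m
    · exact Or.inl (by rw [hfm]; simp)
    have cf : c f = false := (mem_Fr.1 h1.1).1.1
    have h3 : ∃ w, (w = f ∨ G.Adj f w) ∧ (w = s ∨ w = a ∨ w = b) := by
      by_contra hn
      push Not at hn
      refine h2 ⟨h1.1, ?_, ?_⟩
      · intro h4
        rcases Finset.mem_union.1 h4 with h4 | h4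
        · exact h1.2.1 h4
        · simp only [Finset.mem_insert, Finset.mem_singleton] at h4
          obtain ⟨e1, e2, e3⟩ := hn f (Or.inl rfl)
          rcases h4 with h4 | h4 | h4
          · exact e1 h4
          · exact e2 h4
          · exact e3 h4
      · intro w hw h4
        rcases Finset.mem_union.1 h4 with h4 | h4
        · exact h1.2.2 w hw h4
        · simp only [Finset.mem_insert, Finset.mem_singleton] at h4
          obtain ⟨e1, e2, e3⟩ := hn w (Or.inr hw)
          rcases h4 with h4 | h4 | h4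
          · exact e1 h4
          · exact e2 h4
          · exact e3 h4
    obtain ⟨w, hw, hw'⟩ := h3
    rcases hw with rfl | hw
    · rcases hw' with h | h | h
      · exact (hfs h).elim
      · rw [h, ca] at cf
        cases cf
      · rw [h, cb] at cf
        cases cf
    · rcases hw' with h | h | h
      · subst h
        rcases (nb f).1 hw.symm with h | h | h
        · exact (hfm h).elim
        · rw [h, ca] at cf
          cases cf
        · rw [h, cb] at cf
          cases cf
      · subst h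
        refine Or.inr ?_
        rw [hP, Finset.mem_filter]
        exact ⟨Finset.mem_univ _, h1.1, hfs, hfm, Or.inl hw.symm⟩
      · subst h
        refine Or.inr ?_
        rw [hP, Finset.mem_filter]
        exact ⟨Finset.mem_univ _, h1.1, hfs, hfm, Or.inr hw.symm⟩
  have h1 := Finset.card_le_card hsub
  have h2 := Finset.card_union_le ({s, m} : Finset V) P
  have h3 : ({s, m} : Finset V).card ≤ 2 := Finset.card_le_two
  omega

/-! ### G_COMB -/

theorem phase2G (hP : ∀ (H : Finset V) (s : V), Live G c H s →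
      ∃ H', OpU G c H H' ∧ (live G c H \ live G c H').card ≤ 3) {i : ℕ} :
    ∀ (k : ℕ) (H : Finset V), RunG G c i k H → 3 * k ≤ (live G c H).card →
      ∃ H', RunG G c i 0 H' := by
  intro k
  induction k with
  | zero => exact fun H h _ => ⟨H, h⟩
  | succ k ih =>
      intro H h hk
      have h1 : 0 < (live G c H).card := by omega
      obtain ⟨s, hs⟩ := Finset.card_pos.1 h1
      obtain ⟨H', ho, hl⟩ := hP H s (mem_live.1 hs)
      have h2 := card_loss hl
      exact ih H' (RunG.u h ho) (by omega)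

end

/-- row G_INV -/
theorem st_GINV : ST_GINV := by
  intro V _ _ G _ c j L F i k H h
  exact inv_rung F.mu1 h

/-- row G_PH -/
theorem st_GPH : ST_GPH := by
  intro V _ _ G _ c j L H F s hs
  exact ph_stepG F hs

/-- row G_COMB -/
theorem st_GCOMB (hst : ST_GST) (h0 : ST_GC0) (h1 : ST_GC1) (h2 : ST_GC2) (h3 : ST_GC3)
    (h4 : ST_GC4) (h5s : ST_GC5s) (h5a : ST_GC5a) (h5b : ST_GC5b) (h5c : ST_GC5c) :
    ST_GCOMB := by
  intro V _ _ G _ c j L F
  obtain ⟨g0, l0⟩ := hst V G c j L F
  have key : ∀ i, i ≤ j → ∃ k H, RunG G c i k H ∧ k ≤ i ∧ 24 * (j - i) ≤ Lam2 G c L H ∧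
      6 * j ≤ (live G c H).card + 2 * k + 5 * (i - k) := by
    intro i
    induction i with
    | zero => exact fun _ => ⟨0, ∅, RunG.start, le_refl _, by simpa using g0, by simpa using l0⟩
    | succ i ih =>
        intro hi
        obtain ⟨k, H, hr, hk, hg, hl⟩ := ih (by omega)
        have hinv := inv_rung F.mu1 hr
        have sing : ∀ H', (OpN G c H H' ∨ OpK3 G c H H') → LossG G c L H H' 24 2 →
            ∃ k H, RunG G c (i + 1) k H ∧ k ≤ i + 1 ∧ 24 * (j - (i + 1)) ≤ Lam2 G c L H ∧
              6 * j ≤ (live G c H).card + 2 * k + 5 * (i + 1 - k) := by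
          intro H' ho hL
          have e1 := Pool.Agent.Helper79.MC.LossG.lam hL
          have e2 := card_loss hL.2
          exact ⟨k + 1, H', RunG.n hr ho, by omega, by omega, by omega⟩
        have dbl : ∀ H', RunG G c (i + 1) k H' → LossG G c L H H' 24 5 →
            ∃ k H, RunG G c (i + 1) k H ∧ k ≤ i + 1 ∧ 24 * (j - (i + 1)) ≤ Lam2 G c L H ∧
              6 * j ≤ (live G c H).card + 2 * k + 5 * (i + 1 - k) := by
          intro H' hr' hL
          have e1 := Pool.Agent.Helper79.MC.LossG.lam hL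
          have e2 := card_loss hL.2
          exact ⟨k, H', hr', by omega, by omega, by omega⟩
        by_cases c0 : Q0G G c H
        · obtain ⟨H', ho, hL⟩ := h0 V G c j L H F hinv c0
          exact sing H' (Or.inl ho) hL
        by_cases c1 : PN G c H
        · obtain ⟨H', ho, hL⟩ := h1 V G c j L H F hinv c0 c1
          exact sing H' (Or.inl ho) hL
        by_cases c2 : Q2G G c H
        · obtain ⟨H1, H', ho, ho', hL⟩ := h2 V G c j L H F hinv c1 c2
          exact dbl H' (RunG.un hr ho ho') hL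
        by_cases c3 : Q3G G c H
        · obtain ⟨H1, H', ho, ho', hL⟩ := h3 V G c j L H F hinv c1 c2 c3
          exact dbl H' (RunG.un hr ho ho') hL
        by_cases c4 : Q4G G c H
        · obtain ⟨H1, H', ho, ho', hL⟩ := h4 V G c j L H F hinv c1 c2 c3 c4
          exact dbl H' (RunG.un hr ho ho') hL
        have h24 : 24 ≤ Lam2 G c L H := by omega
        by_cases c5s : Q5s G c L H
        · obtain ⟨H1, H', ho, ho', hL⟩ := h5s V G c j L H F hinv c1 c2 c3 c4 h24 c5s
          exact dbl H' (RunG.mv hr (Or.inl ho) ho') hL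
        by_cases c5a : Q5a G c H
        · obtain ⟨H1, H', ho, ho', hL⟩ := h5a V G c j L H F hinv c1 c2 c3 c4 h24 c5s c5a
          exact dbl H' (RunG.mv hr (Or.inl ho) ho') hL
        by_cases c5b : Q5b G c H
        · obtain ⟨H1, H', ho, ho', hL⟩ := h5b V G c j L H F hinv c1 c2 c3 c4 h24 c5s c5a c5b
          exact dbl H' (RunG.mv hr (Or.inl ho) ho') hL
        rcases h5c V G c j L H F hinv c1 c2 c3 c4 h24 c5s c5a c5b with h | h
        · obtain ⟨H', ho, hL⟩ := h
          exact sing H' (Or.inr ho) hL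
        · obtain ⟨H1, H', ho, ho', hL⟩ := h
          exact dbl H' (RunG.mv hr (Or.inr ho) ho') hL
  obtain ⟨k, H, hr, hk, _, hl⟩ := key j (le_refl j)
  exact phase2G (fun H s hs => ph_stepG F hs) k H hr (by omega)

/-- row G_J -/
theorem st_GJ (hTH : Pool.Agent.Helper96.MC.ST_THC) (hX : ST_GFX) (hC : ST_GCOMB)
    (hS : Pool.Agent.Helper6.MC.ST_SEQG) : ST_GJ := by
  intro V _ _ G _ hG c j hj hO
  obtain ⟨c', hE, hO', _⟩ := hTH V G hG c j (by omega) hO
  obtain ⟨L, F⟩ := hX V G hG c' j hj hE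
  obtain ⟨H, hr⟩ := hC V G c' j L F
  exact hS V G hG c' j hO'.mu1 hO'.imb2 H hr

end Pool.Agent.Helper91.MC.DG
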