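import Pool.Agent.Helper91.MC.PA

/-!
MP_4042d8_co, row X_ONE: one unit suffices for `j = 1`.
-/

namespace Pool.Agent.Helper91.MC

open Pool.Agent.Helper27.MC Pool.Agent.Helper51.MC Pool.Agent.Helper88.MC Pool.Agent.Helper64.MC

set_option autoImplicit false
set_option linter.unusedSectionVars false

section

variable {V : Type} [Fintype V] [DecidableEq V] {G : SimpleGraph V} [DecidableRel G.Adj]
  {c : V → Bool}

/-- one unit -/
theorem good_one (hO : Opt G c 1) {X T : Finset V} (h : Blk G c X T) : Good G := by
  refine ⟨flp c (Finset.univ.biUnion (fun _ : Fin 1 => X)), ?_⟩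
  exact UNI2 (G := G) (j := 1) (X := fun _ => X) (T := fun _ => T) hO.mu1 hO.imb2 (fun _ => h)
    (fun i k hik => (hik (Subsingleton.elim i k)).elim)

/-- the neighbours of a vertex other than a given one -/
theorem nb_erase (hG : G.IsRegularOfDegree 3) {b u : V} (h : G.Adj b u) :
    ((G.neighborFinset b).erase u).card = 2 := by
  have h1 := hG b
  rw [← SimpleGraph.card_neighborFinset_eq_degree] at h1
  have h2 : u ∈ G.neighborFinset b := by
    rw [SimpleGraph.mem_neighborFinset]
    exact h
  have h3 := Finset.card_erase_add_one h2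
  omega

theorem exists_out {A B : Finset V} (h : B.card < A.card) : ∃ s ∈ A, s ∉ B := by
  by_contra hn
  push Not at hn
  have := Finset.card_le_card (show A ⊆ B from fun x hx => hn x hx)
  omega

end

/-- row X_ONE -/
theorem st_ONE : ST_ONE := by
  intro V _ _ G _ hG c hO
  have hm := hO.mu1
  refine ⟨fun X T h => good_one hO h, ?_, ?_⟩
  · intro u m a b x y S hx hy hF
    have hbu : G.Adj b u := ((S.nbu b).2 (Or.inr (Or.inr rfl))).symm
    have h1 := nb_erase hG hbu
    have h2 : (({u, m} : Finset V) ∪ (G.neighborFinset b).erase u).card ≤ 4 := by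
      have h3 := Finset.card_union_le ({u, m} : Finset V) ((G.neighborFinset b).erase u)
      have h4 : ({u, m} : Finset V).card ≤ 2 := Finset.card_le_two
      omega
    obtain ⟨s, hs, hn⟩ := exists_out (lt_of_le_of_lt h2 hF)
    simp only [Finset.mem_union, Finset.mem_insert, Finset.mem_singleton, Finset.mem_erase,
      SimpleGraph.mem_neighborFinset] at hn
    push Not at hn
    obtain ⟨⟨h5, h6⟩, h7⟩ := hn
    exact good_one hO (st_PA V G hG c hm u m a b x y s S hx hy hs h5 h6
      (fun h => h7 h5 h.symm))
  · intro u m a b x y r S hx hr hru hT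
    have hbu : G.Adj b u := ((S.nbu b).2 (Or.inr (Or.inr rfl))).symm
    have h1 := nb_erase hG hbu
    have h2 : (({y, r, m} : Finset V) ∪ (G.neighborFinset b).erase u).card ≤ 5 := by
      have h3 := Finset.card_union_le ({y, r, m} : Finset V) ((G.neighborFinset b).erase u)
      have h4 : ({y, r, m} : Finset V).card ≤ 3 := Finset.card_le_three
      omega
    obtain ⟨s, hs, hn⟩ := exists_out (lt_of_le_of_lt h2 hT)
    simp only [Finset.mem_union, Finset.mem_insert, Finset.mem_singleton, Finset.mem_erase,
      SimpleGraph.mem_neighborFinset] at hn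
    push Not at hn
    obtain ⟨⟨h5, h6, h8⟩, h7⟩ := hn
    have hsu : s ≠ u := by
      rintro rfl
      obtain ⟨m', a', b', nb, cs, cm, ca, cb, hab, ma, mb⟩ := t1_data hG hm hs
      rcases (S.nbu b').1 ((nb b').2 (Or.inr (Or.inr rfl))) with h | h | h
      · rw [h, S.cm] at cb
        cases cb
      · rw [h, S.ma] at mb
        omega
      · rw [h, S.mb] at mb
        omega
    exact good_one hO (st_PB V G hG c hm u m a b x y r s S hx hr hru hs h5 h6 h8
      (fun h => h7 hsu h.symm))

end Pool.Agent.Helper91.MC
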