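import Pool.Agent.Helper91.MC.CK

/-!
MP_4042d8_co, section C: C4 and C5 of ando_sec_C.txt.
-/

set_option autoImplicit false
set_option linter.unusedSectionVars false

namespace Pool.Agent.Helper91.MC

open Pool.Agent.Helper27.MC Pool.Agent.Helper51.MC Pool.Agent.Helper88.MC Pool.Agent.Helper64.MC
open Pool.Agent.Helper9.MC

section

variable {V : Type} [Fintype V] [DecidableEq V] {G : SimpleGraph V} [DecidableRel G.Adj]
variable {c : V → Bool} {P : (V → Bool) → Prop}

/-- the property of not being in a `K4` does not depend on the data -/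
theorem nk_uniq (hm : ∀ v, mu G c v ≤ 1) {q p s s' n n' p2 x x' k k' : V}
    (h : Tht G c q p s s' n n') (h1 : ¬ G.Adj p s) (h2 : ¬ G.Adj p s')
    (g : Tht G c q p2 x x' k k') : ¬ G.Adj p2 x ∧ ¬ G.Adj p2 x' := by
  have e : p2 = p := h.p_uniq hm g
  subst e
  constructor
  · rcases h.corner g.cs g.qs with e | e
    · rw [e]
      exact h1
    · rw [e]
      exact h2
  · rcases h.corner g.cs' g.swap.qs with e | e
    · rw [e]
      exact h1
    · rw [e]
      exact h2

/-- the end of a shortest chain: rotating it shortens the chain -/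
theorem acc_end (hK : CKs G P) (hc : P c) : ∀ (m : ℕ) (q : V), Acc G c (m + 1) q →
    (∀ i, i ≤ m → ¬ Acc G c i q) →
    ∃ v pv y y' z z' w x x' k k', Tht G c v pv y y' z z' ∧ ¬ G.Adj pv y ∧
      Tht G c w z x x' k k' ∧ tA G c k ∧ w ≠ q ∧ Acc G (flp c {x, w}) m q ∧
      (v = q ∨ ¬ IsAp G c pv) := by
  have hm := hK.mu1 c hc
  intro m
  induction m with
  | zero =>
      intro q h hmin
      cases h with
      | @succ _ q p s s' n n' w x x' k k' h1 h2 h3 h4 h5 =>
        cases h5 with
        | @zero w p2 x2 x2' k2 k2' g1 g2 g3 g4 =>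
          have e : p2 = n := h4.p_uniq hm g1
          rw [e] at g1 g2 g3
          have hwq : w ≠ q := by
            rintro rfl
            exact hmin 0 le_rfl (Acc.zero g1 g2 g3 g4)
          have hna := out_not_ap hK hc h1 h2
          have hqn : q ≠ n := by
            rintro rfl
            exact hna ⟨_, _, _, _, _, h1⟩
          exact ⟨q, p, s, s', n, n', w, x2, x2', k2, k2', h1, h2, g1, g4, hwq,
            Acc.zero (rot_Th hm g1 g4 h1 hwq.symm hqn) h2 h3 (rot_p hm g1 g4), Or.inl rfl⟩
  | succ m ih =>
      intro q h hmin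
      cases h with
      | @succ _ q p s s' n n' w1 x x' k k' h1 h2 h3 h4 h5 =>
        have hmin1 : ∀ i, i ≤ m → ¬ Acc G c i w1 := by
          intro i hi h6
          exact hmin (i + 1) (by omega) (Acc.succ h1 h2 h3 h4 h6)
        obtain ⟨v, pv, y, y', z, z', w, x2, x2', k2, k2', a1, a2, a3, a4, a5, a6, a7⟩ :=
          ih w1 h5 hmin1
        have hna := out_not_ap hK hc h1 h2
        have hza := out_not_ap hK hc a1 a2
        have hwq : w ≠ q := by
          rintro rfl
          obtain ⟨b1, b2⟩ := nk_uniq hm h1 h2 h3 a3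
          exact hmin 0 (by omega) (Acc.zero a3 b1 b2 a4)
        have hqz : q ≠ z := by
          rintro rfl
          exact hza ⟨_, _, _, _, _, h1⟩
        have hwz : w1 ≠ z := by
          rintro rfl
          exact hza ⟨_, _, _, _, _, h4⟩
        refine ⟨v, pv, y, y', z, z', w, x2, x2', k2, k2', a1, a2, a3, a4, hwq,
          Acc.succ (rot_Th hm a3 a4 h1 hwq.symm hqz) h2 h3 (rot_Th hm a3 a4 h4 a5.symm hwz) a6,
          ?_⟩
        rcases a7 with h6 | h6
        · subst h6
          refine Or.inr ?_
          have e : n = pv := a1.p_uniq hm h4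
          rw [← e]
          exact hna
        · exact Or.inr h6

/-- C4 -/
theorem c4 (hG : G.IsRegularOfDegree 3) (hK : CKs G P) : ∀ (m : ℕ) (c : V → Bool), P c →
    ∀ q p x x' k k' q' p' y y' l l' u mu', Tht G c q p x x' k k' → ¬ G.Adj p x →
      ¬ G.Adj p x' → Tht G c q' p' y y' l l' → q ≠ q' → ¬ IsAp G c p → ¬ IsAp G c p' →
      Sv G c u mu' p p' → Acc G c m q → False := by
  intro m
  induction m using Nat.strong_induction_on with
  | _ m ih =>
  intro c hc q p x x' k k' q' p' y y' l l' u mu' hq nk nk' hq' hqq hp hp' hu hA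
  have hm := hK.mu1 c hc
  by_cases hmin : ∃ i, i < m ∧ Acc G c i q
  · obtain ⟨i, hi, hi'⟩ := hmin
    exact ih i hi c hc q p x x' k k' q' p' y y' l l' u mu' hq nk nk' hq' hqq hp hp' hu hi'
  push Not at hmin
  have hqp' : q ≠ p' := by
    rintro rfl
    have e : q' = p := rm_uniq (hm _) hq'.rqp.symm hq.rqp
    exact hp (e ▸ ⟨_, _, _, _, _, hq'⟩)
  have hq'p : q' ≠ p := by
    rintro rfl
    exact hp ⟨_, _, _, _, _, hq'⟩
  have hqp : q ≠ p := hq.rqp.ne
  -- `u` and its mate are not corners
  have ucor : ∀ {w z x x' k k' : V}, Tht G c w z x x' k k' → u ≠ x ∧ mu' ≠ x := by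
    intro w z x x' k k' hw
    have key : u ≠ x ∧ u ≠ x' := by
      have hwp : w ≠ p := by
        rintro rfl
        exact hp ⟨_, _, _, _, _, hw⟩
      have hwp' : w ≠ p' := by
        rintro rfl
        exact hp' ⟨_, _, _, _, _, hw⟩
      have h0 : ¬ G.Adj u w := by
        intro h1
        rcases (hu.n3.nb w).1 h1 with h2 | h2 | h2
        · exact ntf hw.cq hu.cm h2
        · exact hwp h2
        · exact hwp' h2
      constructor
      · rintro rfl
        exact h0 hw.qs.symm
      · rintro rfl
        exact h0 hw.swap.qs.symm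
    refine ⟨key.1, ?_⟩
    rintro rfl
    exact key.2 (rm_uniq (hm _) (sv_rm hu).symm hw.rss)
  cases m with
  | zero =>
      cases hA with
      | @zero q p2 s s' n n' g1 g2 g3 g4 =>
        have e : p2 = p := hq.p_uniq hm g1
        rw [e] at g1 g2 g3
        have hP1 := hK.rot c q p s s' n n' hc g1 g4
        have hT' := rot_Th hm g1 g4 hq' hqq.symm hq'p
        have hpn : p' ≠ n := by
          rintro rfl
          exact nomate g4.2 _ hq'.rqp.symm
        have hap : ¬ IsAp G (flp c {s, q}) p' := by
          intro h6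
          rcases rot_new hm g1 g4 h6 with h7 | h7 | h7
          · exact hp' h7
          · exact ntf hq'.cp g1.cs h7
          · exact hpn h7
        obtain ⟨us, ms⟩ := ucor g1
        have hu1 := rot_Sv hm g1 g4 hu us ms hqp.symm hqp'.symm
        have hu2 : Sv G (flp c {s, q}) u mu' p' p := sv_swap hu1
        obtain ⟨k1, k2, h7, h8, h9, h10⟩ := hK.c2 _ q' p' y y' l l' u mu' p hP1 hT' hap hu2
          (rot_p hm g1 g4)
        have huq : q ≠ u := ntf hq.cq hu.cs
        have main : ∀ k1 k2 : V, q = k1 → G.Adj p k2 → flp c {s, q} k2 = false → G.Adj k1 k2 →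
            False := by
          rintro k1 k2 rfl h11 h12 h13
          rcases (g1.nq.nb k2).1 h13 with h14 | h14 | h14
          · exact G.loopless.irrefl _ (h14 ▸ h11)
          · rw [h14, flp_in (by simp), g1.cs] at h12
            cases h12
          · exact g3 (h14 ▸ h11)
        rcases (h7.nb q).1 g1.rqp.symm.1 with h11 | h11 | h11
        · exact huq h11
        · exact main k1 k2 h11 ((h7.nb k2).2 (Or.inr (Or.inr rfl))) h9 h10
        · exact main k2 k1 h11 ((h7.nb k1).2 (Or.inr (Or.inl rfl))) h8 h10.symm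
  | succ m =>
      obtain ⟨v, pv, s, s', z, z', w, x2, x2', k2, k2', a1, a2, a3, a4, a5, a6, a7⟩ :=
        acc_end hK hc m q hA (fun i hi => hmin i (by omega))
      have hza := out_not_ap hK hc a1 a2
      have hzw : G.Adj z s := a1.sn.symm
      have hq'w : q' ≠ w := by
        rintro rfl
        have e : p' = z := a3.p_uniq hm hq'
        rw [e] at hu
        have e2 : u = s := one_S hG hK hc a3 hza hu a1.hs
          ((hu.n3.nb z).2 (Or.inr (Or.inr rfl))).symm hzw
        exact (ucor a1).1 e2
      have hqz : q ≠ z := by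
        rintro rfl
        exact hza ⟨_, _, _, _, _, hq⟩
      have hq'z : q' ≠ z := by
        rintro rfl
        exact hza ⟨_, _, _, _, _, hq'⟩
      have hP1 := hK.rot c w z x2 x2' k2 k2' hc a3 a4
      have nap : ∀ {q p x x' k k' : V}, Tht G c q p x x' k k' → ¬ IsAp G c p →
          ¬ IsAp G (flp c {x2, w}) p := by
        intro q p x x' k k' hq hp h6
        rcases rot_new hm a3 a4 h6 with h7 | h7 | h7
        · exact hp h7
        · exact ntf hq.cp a3.cs h7
        · subst h7
          exact nomate a4.2 _ hq.rqp.symm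
      obtain ⟨us, ms⟩ := ucor a3
      have hpw : p ≠ w := by
        rintro rfl
        exact hp ⟨_, _, _, _, _, a3⟩
      have hpw' : p' ≠ w := by
        rintro rfl
        exact hp' ⟨_, _, _, _, _, a3⟩
      exact ih m (by omega) _ hP1 q p x x' k k' q' p' y y' l l' u mu'
        (rot_Th hm a3 a4 hq a5.symm hqz) nk nk' (rot_Th hm a3 a4 hq' hq'w hq'z) hqq (nap hq hp)
        (nap hq' hp') (rot_Sv hm a3 a4 hu us ms hpw hpw') a6

/-- C5 -/
theorem c5 (hG : G.IsRegularOfDegree 3) (hK : CKs G P) : ∀ (m : ℕ) (c : V → Bool), P c →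
    ∀ q p s s' n n' t t' l l' w x x' k k', Tht G c q p s s' n n' → ¬ G.Adj p s →
      Tht G c p q t t' l l' → Tht G c w n x x' k k' → Acc G c m p → False := by
  intro m
  induction m using Nat.strong_induction_on with
  | _ m ih =>
  intro c hc q p s s' n n' t t' l l' w x x' k k' hq nk hp hw hA
  have hm := hK.mu1 c hc
  by_cases hmin : ∃ i, i < m ∧ Acc G c i p
  · obtain ⟨i, hi, hi'⟩ := hmin
    exact ih i hi c hc q p s s' n n' t t' l l' w x x' k k' hq nk hp hw hi'
  push Not at hmin
  have hna := out_not_ap hK hc hq nk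
  have apq : IsAp G c q := ⟨_, _, _, _, _, hq⟩
  have app : IsAp G c p := ⟨_, _, _, _, _, hp⟩
  have hwp : w ≠ p := by
    rintro rfl
    have e : n = q := hp.p_uniq hm hw
    exact hna (e ▸ apq)
  have hwq : w ≠ q := by
    rintro rfl
    have e : n = p := hq.p_uniq hm hw
    exact hna (e ▸ app)
  cases m with
  | zero =>
      cases hA with
      | @zero _ p2 t2 t2' k2 k2' g1 g2 g3 g4 =>
        have e : p2 = q := hp.p_uniq hm g1
        rw [e] at g1 g2 g3
        have hP1 := hK.rot c p q t2 t2' k2 k2' hc g1 g4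
        have hqk : q ≠ k2 := by
          rintro rfl
          exact nomate g4.2 _ hq.rqp
        -- `t2` is not adjacent to `q`
        have hqt : ¬ G.Adj q t2 := g2
        have hst : s ≠ t2 := by
          rintro rfl
          exact hqt hq.qs
        have hst' : s' ≠ t2 := by
          rintro rfl
          exact hqt hq.swap.qs
        have hnp : n ≠ p := by
          rintro rfl
          exact nk hq.sn.symm
        have h6 := rot_Sv hm g1 g4 hq.hs hst hst' hq.rqp.ne hnp
        exact hK.c3 _ q s s' n w x x' k k' hP1 (rot_p hm g1 g4) h6 hq.swap.qs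
          (rot_Th hm g1 g4 hw hwp hwq)
  | succ m =>
      obtain ⟨v, pv, y, y', z, z', w', x2, x2', k2, k2', a1, a2, a3, a4, a5, a6, a7⟩ :=
        acc_end hK hc m p hA (fun i hi => hmin i (by omega))
      have hza := out_not_ap hK hc a1 a2
      have hP1 := hK.rot c w' z x2 x2' k2 k2' hc a3 a4
      have hqz : q ≠ z := by
        rintro rfl
        exact hza apq
      have hpz : p ≠ z := by
        rintro rfl
        exact hza app
      have hwz : w ≠ z := by
        rintro rfl
        exact hza ⟨_, _, _, _, _, hw⟩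
      have hqw' : q ≠ w' := by
        rintro rfl
        have e : z = p := hq.p_uniq hm a3
        exact hza (e ▸ app)
      have hww' : w ≠ w' := by
        rintro rfl
        have e : z = n := hw.p_uniq hm a3
        subst e
        have e2 : s = y := one_S hG hK hc a3 hza hq.hs a1.hs hq.sn.symm a1.sn.symm
        subst e2
        have e3 : v = q := by
          rcases hq.out a1.cq a1.qs.symm with h6 | h6
          · exact h6
          · exact (hza (h6 ▸ ⟨_, _, _, _, _, a1⟩)).elim
        subst e3
        rcases a7 with h6 | h6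
        · exact hq.rqp.ne h6
        · have e4 : pv = p := hq.p_uniq hm a1
          exact h6 (e4 ▸ app)
      exact ih m (by omega) _ hP1 q p s s' n n' t t' l l' w x x' k k'
        (rot_Th hm a3 a4 hq hqw' hqz) nk (rot_Th hm a3 a4 hp a5.symm hpz)
        (rot_Th hm a3 a4 hw hww' hwz) a6

end

end Pool.Agent.Helper91.MC
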