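import Pool.Agent.Helper9.MC.Rot

/-!
MP_4042d8_co, section C: Theta apexes, their rotation, accessibility, and C4, C5 of the text
ando_sec_C.txt for an abstract class `P` of colourings closed under rotations.
-/

set_option autoImplicit false
set_option linter.unusedSectionVars false

namespace Pool.Agent.Helper91.MC

open Pool.Agent.Helper27.MC Pool.Agent.Helper51.MC Pool.Agent.Helper88.MC Pool.Agent.Helper64.MC
open Pool.Agent.Helper9.MC

section

variable {V : Type} [Fintype V] [DecidableEq V] {G : SimpleGraph V} [DecidableRel G.Adj]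

variable (G) in
/-- A Theta: apex `q`, partner `p` (mate of `q`), corners `s`, `s'` (mates), outer vertices
`n` at `s` and `n'` at `s'`. -/
structure Tht (c : V → Bool) (q p s s' n n' : V) : Prop where
  cp : c p = true
  nq : N3 G q p s s'
  hs : Sv G c s s' q n
  hs' : Sv G c s' s q n'

variable (G) in
/-- `q` is a Theta apex. -/
def IsAp (c : V → Bool) (q : V) : Prop := ∃ p s s' n n', Tht G c q p s s' n n'

variable {c : V → Bool} {q p s s' n n' : V}

theorem ntf {x z : V} (hx : c x = true) (hz : c z = false) : x ≠ z := by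
  rintro rfl
  rw [hx] at hz
  cases hz

/-- three distinct neighbours are all the neighbours -/
theorem n3_three (hG : G.IsRegularOfDegree 3) {v x y z : V} (h1 : G.Adj v x) (h2 : G.Adj v y)
    (h3 : G.Adj v z) (h4 : x ≠ y) (h5 : x ≠ z) (h6 : y ≠ z) : N3 G v x y z := by
  refine ⟨?_, h4, h5, h6⟩
  have hc := hG v
  rw [← SimpleGraph.card_neighborFinset_eq_degree] at hc
  have hd : ({x, y, z} : Finset V) = G.neighborFinset v := by
    refine Finset.eq_of_subset_of_card_le ?_ ?_
    · intro w hw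
      simp only [Finset.mem_insert, Finset.mem_singleton] at hw
      rw [SimpleGraph.mem_neighborFinset]
      rcases hw with rfl | rfl | rfl
      · exact h1
      · exact h2
      · exact h3
    · rw [hc, Finset.card_insert_of_notMem (by simp [h4, h5]), Finset.card_pair h6]
  intro w
  rw [← SimpleGraph.mem_neighborFinset, ← hd]
  simp

theorem n3_swap {v x y z : V} (h : N3 G v x y z) : N3 G v x z y :=
  ⟨fun w => (h.nb w).trans (by tauto), h.xz, h.xy, h.yz.symm⟩

theorem Tht.swap (h : Tht G c q p s s' n n') : Tht G c q p s' s n' n :=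
  ⟨h.cp, n3_swap h.nq, h.hs', h.hs⟩

theorem Tht.cq (h : Tht G c q p s s' n n') : c q = true := h.hs.ca
theorem Tht.cs (h : Tht G c q p s s' n n') : c s = false := h.hs.cs
theorem Tht.cs' (h : Tht G c q p s s' n n') : c s' = false := h.hs'.cs
theorem Tht.cn (h : Tht G c q p s s' n n') : c n = true := h.hs.cb

theorem Tht.rqp (h : Tht G c q p s s' n n') : Rm G c q p :=
  ⟨(h.nq.nb p).2 (Or.inl rfl), by rw [h.cp, h.cq]⟩

theorem Tht.rss (h : Tht G c q p s s' n n') : Rm G c s s' := sv_rm h.hs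

theorem Tht.qs (h : Tht G c q p s s' n n') : G.Adj q s := (h.nq.nb s).2 (Or.inr (Or.inl rfl))

theorem Tht.sn (h : Tht G c q p s s' n n') : G.Adj s n := (h.hs.n3.nb n).2 (Or.inr (Or.inr rfl))

/-- the partner is unique -/
theorem Tht.p_uniq (hm : ∀ v, mu G c v ≤ 1) {p2 s2 s2' n2 n2' : V}
    (h : Tht G c q p s s' n n') (h2 : Tht G c q p2 s2 s2' n2 n2') : p2 = p :=
  rm_uniq (hm q) h2.rqp h.rqp

/-- a false neighbour of the apex is a corner -/
theorem Tht.corner (h : Tht G c q p s s' n n') {x : V} (hx : c x = false) (ha : G.Adj q x) :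
    x = s ∨ x = s' := by
  rcases (h.nq.nb x).1 ha with h1 | h1 | h1
  · exact absurd h1 (ntf h.cp hx).symm
  · exact Or.inl h1
  · exact Or.inr h1

/-- a true neighbour of a corner is the apex or the outer vertex -/
theorem Tht.out (h : Tht G c q p s s' n n') {x : V} (hx : c x = true) (ha : G.Adj s x) :
    x = q ∨ x = n := by
  rcases (h.hs.n3.nb x).1 ha with h1 | h1 | h1
  · exact absurd h1 (ntf hx h.cs')
  · exact Or.inl h1
  · exact Or.inr h1

/-! ### effects of a rotation -/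

section rot

variable (hm : ∀ v, mu G c v ≤ 1) (h : Tht G c q p s s' n n') (hn : tA G c n)
include hm h hn

theorem rot_mu : ∀ v, mu G (flp c {s, q}) v ≤ 1 := (rot_all hm h.hs h.nq h.rqp hn).1

theorem rot_p : tA G (flp c {s, q}) p := by
  refine ⟨?_, (rot_all hm h.hs h.nq h.rqp hn).2⟩
  rw [pair_col (ntf h.cp h.cs) h.rqp.ne.symm, h.cp]

theorem rot_A {v : V} (hv : tA G c v) (hne : v ≠ n) : tA G (flp c {s, q}) v := by
  have h1 : v ≠ s := ntf hv.1 h.cs
  have h2 : v ≠ q := by
    rintro rfl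
    exact nomate hv.2 _ h.rqp
  refine ⟨by rw [pair_col h1 h2, hv.1], ?_⟩
  rw [pair_mu h1 h2, hv.2]
  · intro h3
    rcases h.out hv.1 h3.symm with h4 | h4
    · exact h2 h4
    · exact hne h4
  · intro h3
    exact nomate hv.2 q ⟨h3, by rw [h.cq, hv.1]⟩

/-- an apex other than `q`, `p` has its corners and outer vertices away from `s`, `q` -/
theorem rot_away {v pv x x' m m' : V} (hv : Tht G c v pv x x' m m') (h1 : v ≠ q) (h2 : v ≠ p) :
    v ≠ s ∧ pv ≠ s ∧ pv ≠ q ∧ x ≠ s ∧ x ≠ q ∧ x' ≠ s ∧ x' ≠ q ∧ m ≠ s ∧ m ≠ q ∧ m' ≠ s ∧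
      m' ≠ q := by
  have hvn : v ≠ n := by
    rintro rfl
    exact nomate hn.2 _ hv.rqp
  have e1 : x ≠ s := by
    rintro rfl
    rcases h.out hv.cq hv.qs.symm with h3 | h3
    · exact h1 h3
    · exact hvn h3
  have e2 : x' ≠ s := by
    rintro rfl
    rcases h.out hv.cq hv.swap.qs.symm with h3 | h3
    · exact h1 h3
    · exact hvn h3
  refine ⟨ntf hv.cq h.cs, ntf hv.cp h.cs, ?_, e1, (ntf h.cq hv.cs).symm, e2,
    (ntf h.cq hv.cs').symm, ntf hv.cn h.cs, ?_, ntf hv.swap.cn h.cs, ?_⟩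
  · rintro rfl
    exact h2 (rm_uniq (hm _) hv.rqp.symm h.rqp)
  · rintro rfl
    rcases h.corner hv.cs hv.sn.symm with h3 | h3
    · exact e1 h3
    · subst h3
      exact e2 (rm_uniq (hm _) hv.rss h.rss.symm)
  · rintro rfl
    rcases h.corner hv.cs' hv.swap.sn.symm with h3 | h3
    · exact e2 h3
    · subst h3
      exact e1 (rm_uniq (hm _) hv.rss.symm h.rss.symm)

theorem rot_Th {v pv x x' m m' : V} (hv : Tht G c v pv x x' m m') (h1 : v ≠ q) (h2 : v ≠ p) :
    Tht G (flp c {s, q}) v pv x x' m m' := by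
  obtain ⟨a1, a2, a3, a4, a5, a6, a7, a8, a9, a10, a11⟩ := rot_away hm h hn hv h1 h2
  refine ⟨by rw [pair_col a2 a3, hv.cp], hv.nq, ⟨?_, ?_, ?_, ?_, hv.hs.n3⟩,
    ⟨?_, ?_, ?_, ?_, hv.hs'.n3⟩⟩
  · rw [pair_col a4 a5, hv.cs]
  · rw [pair_col a6 a7, hv.cs']
  · rw [pair_col a1 h1, hv.cq]
  · rw [pair_col a8 a9, hv.cn]
  · rw [pair_col a6 a7, hv.cs']
  · rw [pair_col a4 a5, hv.cs]
  · rw [pair_col a1 h1, hv.cq]
  · rw [pair_col a10 a11, hv.swap.cn]

/-- an apex after the rotation is an old one, or `s`, or `n` -/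
theorem rot_new {v : V} (hv : IsAp G (flp c {s, q}) v) : IsAp G c v ∨ v = s ∨ v = n := by
  by_cases e1 : v = s
  · exact Or.inr (Or.inl e1)
  by_cases e2 : v = n
  · exact Or.inr (Or.inr e2)
  refine Or.inl ?_
  obtain ⟨pv, x, x', m, m', hv⟩ := hv
  have hm1 := rot_mu hm h hn
  have hp := rot_p hm h hn
  have hsq : s ≠ q := (ntf h.cq h.cs).symm
  have cs1 : flp c {s, q} s = true := by
    rw [flp_in (by simp), h.cs]
    rfl
  have cq1 : flp c {s, q} q = false := by
    rw [flp_in (by simp), h.cq]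
    rfl
  -- the new mates
  have rsn : Rm G (flp c {s, q}) s n := by
    refine ⟨h.sn, ?_⟩
    have hnq : n ≠ q := by
      rintro rfl
      exact nomate hn.2 _ h.rqp
    rw [pair_col (ntf h.cn h.cs) hnq, h.cn, cs1]
  have rqs : Rm G (flp c {s, q}) q s' := by
    refine ⟨(h.nq.nb s').2 (Or.inr (Or.inr rfl)), ?_⟩
    rw [pair_col h.rss.ne.symm (ntf h.cq h.cs').symm, h.cs', cq1]
  have hvq : v ≠ q := by
    rintro rfl
    have := hv.cq
    rw [cq1] at this
    cases this
  have pvs : pv ≠ s := by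
    rintro rfl
    exact e2 (rm_uniq (hm1 _) hv.rqp.symm rsn)
  have pvq : pv ≠ q := by
    rintro rfl
    have := hv.cp
    rw [cq1] at this
    cases this
  have key : ∀ {x x' m m' : V}, Tht G (flp c {s, q}) v pv x x' m m' → x ≠ q := by
    intro x x' m m' hv
    rintro rfl
    have hvp : v ≠ p := by
      rintro rfl
      exact nomate hp.2 _ hv.rqp
    rcases (h.nq.nb v).1 hv.qs.symm with h3 | h3 | h3
    · exact hvp h3
    · exact e1 h3
    · have := hv.cq
      rw [h3, pair_col h.rss.ne.symm (ntf h.cq h.cs').symm, h.cs'] at this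
      cases this
  have kx := key hv
  have kx' := key hv.swap
  have xs : x ≠ s := by
    rintro rfl
    have := hv.cs
    rw [cs1] at this
    cases this
  have xs' : x' ≠ s := by
    rintro rfl
    have := hv.cs'
    rw [cs1] at this
    cases this
  have key2 : ∀ {x x' m m' : V}, Tht G (flp c {s, q}) v pv x x' m m' → x ≠ q → x' ≠ q →
      m ≠ s ∧ m ≠ q := by
    intro x x' m m' hv kx kx'
    constructor
    · rintro rfl
      have hx : c x = false := by
        have := hv.cs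
        rwa [pair_col (by
          rintro rfl
          rw [cs1] at this
          cases this) kx] at this
      rcases (h.hs.n3.nb x).1 hv.sn.symm with h3 | h3 | h3
      · subst h3
        exact kx' (rm_uniq (hm1 _) hv.rss rqs.symm)
      · exact kx h3
      · rw [h3, h.cn] at hx
        cases hx
    · rintro rfl
      have := hv.cn
      rw [cq1] at this
      cases this
  obtain ⟨ms, mq⟩ := key2 hv kx kx'
  obtain ⟨ms', mq'⟩ := key2 hv.swap kx' kx
  have col : ∀ w, w ≠ s → w ≠ q → flp c {s, q} w = c w := fun w h1 h2 => pair_col h1 h2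
  refine ⟨pv, x, x', m, m', by rw [← col pv pvs pvq, hv.cp], hv.nq, ⟨?_, ?_, ?_, ?_, hv.hs.n3⟩,
    ⟨?_, ?_, ?_, ?_, hv.hs'.n3⟩⟩
  · rw [← col x xs kx, hv.cs]
  · rw [← col x' xs' kx', hv.cs']
  · rw [← col v e1 hvq, hv.cq]
  · rw [← col m ms mq, hv.cn]
  · rw [← col x' xs' kx', hv.cs']
  · rw [← col x xs kx, hv.cs]
  · rw [← col v e1 hvq, hv.cq]
  · rw [← col m' ms' mq', hv.swap.cn]

/-- an `S`-vertex away from `s`, `q` -/
theorem rot_Sv {u m a b : V} (hu : Sv G c u m a b) (h1 : u ≠ s) (h2 : m ≠ s) (h3 : a ≠ q)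
    (h4 : b ≠ q) : Sv G (flp c {s, q}) u m a b := by
  refine ⟨?_, ?_, ?_, ?_, hu.n3⟩
  · rw [pair_col h1 (ntf h.cq hu.cs).symm, hu.cs]
  · rw [pair_col h2 (ntf h.cq hu.cm).symm, hu.cm]
  · rw [pair_col (ntf hu.ca h.cs) h3, hu.ca]
  · rw [pair_col (ntf hu.cb h.cs) h4, hu.cb]

end rot

/-! ### accessibility -/

variable (G) in
/-- `q` is a Theta apex, not in a `K4`, from which a corner of type `T1` is reached by `m` child
steps. -/
inductive Acc (c : V → Bool) : ℕ → V → Prop
  | zero {q p s s' n n' : V} : Tht G c q p s s' n n' → ¬ G.Adj p s → ¬ G.Adj p s' → tA G c n →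
      Acc c 0 q
  | succ {m : ℕ} {q p s s' n n' w x x' k k' : V} : Tht G c q p s s' n n' → ¬ G.Adj p s →
      ¬ G.Adj p s' → Tht G c w n x x' k k' → Acc c m w → Acc c (m + 1) q

variable (G) in
/-- the facts used for C4, C5 about a class of colourings -/
structure CKs (P : (V → Bool) → Prop) : Prop where
  mu1 : ∀ c, P c → ∀ v, mu G c v ≤ 1
  rot : ∀ c q p s s' n n', P c → Tht G c q p s s' n n' → tA G c n → P (flp c {s, q})
  f1 : ∀ c q s s', P c → tQ G c q → tS G c s → tS G c s' → G.Adj q s → G.Adj q s' → s ≠ s' →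
    G.Adj s s'
  c1 : ∀ c q p s s' n n', P c → Tht G c q p s s' n n' → ¬ G.Adj p s → n ≠ n'
  c2 : ∀ c q p s s' n n' u m b, P c → Tht G c q p s s' n n' → ¬ IsAp G c p → Sv G c u m p b →
    tA G c b → ∃ k k', N3 G b u k k' ∧ c k = false ∧ c k' = false ∧ G.Adj k k'
  c3 : ∀ c a s s' y w x x' k k', P c → tA G c a → Sv G c s s' a y → G.Adj a s' →
    Tht G c w y x x' k k' → False

variable {P : (V → Bool) → Prop}

/-- the outer vertex of a corner (not in a `K4`) is not an apex -/
theorem out_not_ap (hK : CKs G P) (hc : P c) (h : Tht G c q p s s' n n') (hk : ¬ G.Adj p s) :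
    ¬ IsAp G c n := by
  rintro ⟨pn, y, y', m, m', hn⟩
  have hm := hK.mu1 c hc
  rcases hn.corner h.cs h.sn.symm with h1 | h1
  · subst h1
    have h2 : s' = y' := rm_uniq (hm s) h.rss hn.rss
    subst h2
    exact hK.c1 c q p s s' n n' hc h hk (by
      rcases h.swap.out hn.cq hn.swap.qs.symm with h3 | h3
      · exact absurd h3 h.hs.n3.yz.symm
      · exact h3)
  · subst h1
    have h2 : s' = y := rm_uniq (hm s) h.rss hn.rss.symm
    subst h2
    exact hK.c1 c q p s s' n n' hc h hk (by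
      rcases h.swap.out hn.cq hn.qs.symm with h3 | h3
      · exact absurd h3 h.hs.n3.yz.symm
      · exact h3)

/-- two `S`-neighbours of the mate `z` of an apex which is not an apex are equal -/
theorem one_S (hG : G.IsRegularOfDegree 3) (hK : CKs G P) (hc : P c) {w z x x' k k' : V}
    (hw : Tht G c w z x x' k k') (hz : ¬ IsAp G c z) {u y mu' my a b a' b' : V}
    (hu : Sv G c u mu' a b) (hy : Sv G c y my a' b') (h1 : G.Adj z u) (h2 : G.Adj z y) :
    u = y := by
  have hm := hK.mu1 c hc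
  by_contra hne
  have tz : tQ G c z := ⟨hw.cp, mu_of_rm hm hw.rqp.symm⟩
  have huy : G.Adj u y := hK.f1 c z u y hc tz (sv_tS hm hu) (sv_tS hm hy) h1 h2 hne
  have ruy : Rm G c u y := ⟨huy, by rw [hy.cs, hu.cs]⟩
  have hwu : w ≠ u := ntf hw.cq hu.cs
  have hwy : w ≠ y := ntf hw.cq hy.cs
  have hz3 : N3 G z w u y := n3_three hG hw.rqp.symm.1 h1 h2 hwu hwy hne
  obtain ⟨m1, b1, hu1⟩ := sv_ex hG (sv_tS hm hu) h1.symm hw.cp
  obtain ⟨m2, b2, hy1⟩ := sv_ex hG (sv_tS hm hy) h2.symm hw.cp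
  have e1 : m1 = y := rm_uniq (hm u) (sv_rm hu1) ruy
  have e2 : m2 = u := rm_uniq (hm y) (sv_rm hy1) ruy.symm
  rw [e1] at hu1
  rw [e2] at hy1
  exact hz ⟨w, u, y, b1, b2, hw.cq, hz3, hu1, hy1⟩

end

end Pool.Agent.Helper91.MC
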