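import Pool.Agent.Helper91.MC.Ter

/-!
MP_4042d8_co, row K1: a slot is in conflict with at most 8 slots.
-/

namespace Pool.Agent.Helper91.MC

open Pool.Agent.Helper27.MC

set_option autoImplicit false
set_option linter.unusedSectionVars false

section

variable {V : Type} [Fintype V] [DecidableEq V] {G : SimpleGraph V} [DecidableRel G.Adj]
  {c : V → Bool}

/-- the slots at `x`: those with free vertex `x`, and, for `x` of type `T1`, those whose
`A`-vertex is adjacent to `x` -/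
def Sx (G : SimpleGraph V) [DecidableRel G.Adj] (c : V → Bool) (x : V) : Finset (V × V) :=
  Finset.univ.filter (fun p : V × V => IsSl G c p.1 p.2 ∧
    (p.1 = x ∨ (T1 G c x ∧ G.Adj p.2 x)))

/-- the slots whose `A`-vertex is adjacent to `w` -/
def Wx (G : SimpleGraph V) [DecidableRel G.Adj] (c : V → Bool) (w : V) : Finset (V × V) :=
  Finset.univ.filter (fun p : V × V => IsSl G c p.1 p.2 ∧ G.Adj p.2 w)

theorem mem_Sx {x : V} {p : V × V} : p ∈ Sx G c x ↔ IsSl G c p.1 p.2 ∧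
    (p.1 = x ∨ (T1 G c x ∧ G.Adj p.2 x)) := by
  unfold Sx
  rw [Finset.mem_filter]
  simp

theorem mem_Wx {x : V} {p : V × V} : p ∈ Wx G c x ↔ IsSl G c p.1 p.2 ∧ G.Adj p.2 x := by
  unfold Wx
  rw [Finset.mem_filter]
  simp

/-- at a `T1`-vertex there is at most one slot -/
theorem Sx_t1 (hG : G.IsRegularOfDegree 3)
    (hcl : ∀ u u' a : V, IsSl G c u a → IsSl G c u' a → u = u') {x : V} (hx : T1 G c x)
    {p p' : V × V} (hp : p ∈ Sx G c x) (hp' : p' ∈ Sx G c x) : p = p' := by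
  rw [mem_Sx] at hp hp'
  obtain ⟨h1, h2 | h2⟩ := hp
  · exact (fr_not_t1 (h2 ▸ h1.1) hx).elim
  obtain ⟨h3, h4 | h4⟩ := hp'
  · exact (fr_not_t1 (h4 ▸ h3.1) hx).elim
  have h5 : p.2 = p'.2 := t1_uniq hG hx h1.2.1 h3.2.1 h2.2.symm h4.2.symm
  have h6 : p.1 = p'.1 := hcl p.1 p'.1 p.2 h1 (h5 ▸ h3)
  exact Prod.ext h6 h5

theorem Sx_card (hG : G.IsRegularOfDegree 3)
    (hcl : ∀ u u' a : V, IsSl G c u a → IsSl G c u' a → u = u') (x : V) :
    (Sx G c x).card ≤ 2 := by
  by_cases ht : T1 G c x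
  · have : (Sx G c x).card ≤ 1 :=
      Finset.card_le_one.2 (fun p hp p' hp' => Sx_t1 hG hcl ht hp hp')
    omega
  by_cases hf : Fr G c x
  · have hc := cut_card (c := c) hG x
    rw [hf.1.2] at hc
    have h1 : (Sx G c x).card ≤ (Finset.univ.filter (fun w => G.Adj x w ∧ ¬ c w = c x)).card := by
      refine Finset.card_le_card_of_injOn (fun p => p.2) ?_ ?_
      · intro p hp
        rw [Finset.mem_coe, mem_Sx] at hp
        rw [Finset.mem_coe, Finset.mem_filter]
        obtain ⟨h1, h2 | h2⟩ := hp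
        · refine ⟨Finset.mem_univ _, h2 ▸ h1.2.2, ?_⟩
          rw [h1.2.1.1, hf.1.1]
          simp
        · exact (ht h2.1).elim
      · intro p hp p' hp' he
        rw [Finset.mem_coe, mem_Sx] at hp hp'
        obtain ⟨h1, h2 | h2⟩ := hp
        · obtain ⟨h3, h4 | h4⟩ := hp'
          · exact Prod.ext (h2.trans h4.symm) he
          · exact (ht h4.1).elim
        · exact (ht h2.1).elim
    omega
  · have : Sx G c x = ∅ := by
      rw [Finset.eq_empty_iff_forall_notMem]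
      intro p hp
      rw [mem_Sx] at hp
      obtain ⟨h1, h2 | h2⟩ := hp
      · exact hf (h2 ▸ h1.1)
      · exact ht h2.1
    rw [this]
    simp

theorem Wx_card (hG : G.IsRegularOfDegree 3)
    (hcl : ∀ u u' a : V, IsSl G c u a → IsSl G c u' a → u = u') (w : V) :
    (Wx G c w).card ≤ 3 := by
  rw [← hG w, ← SimpleGraph.card_neighborFinset_eq_degree]
  refine Finset.card_le_card_of_injOn (fun p => p.2) ?_ ?_
  · intro p hp
    rw [Finset.mem_coe, mem_Wx] at hp
    rw [Finset.mem_coe, SimpleGraph.mem_neighborFinset]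
    exact hp.2.symm
  · intro p hp p' hp' he
    rw [Finset.mem_coe, mem_Wx] at hp hp'
    have he' : p.2 = p'.2 := he
    exact Prod.ext (hcl p.1 p'.1 p.2 hp.1 (he' ▸ hp'.1)) he'

theorem Wx_erase (hG : G.IsRegularOfDegree 3)
    (hcl : ∀ u u' a : V, IsSl G c u a → IsSl G c u' a → u = u') {w u a : V}
    (hs : IsSl G c u a) (hw : G.Adj a w) : ((Wx G c w).erase (u, a)).card ≤ 2 := by
  have h1 := Wx_card hG hcl w
  have h2 : (u, a) ∈ Wx G c w := mem_Wx.2 ⟨hs, hw⟩
  have h3 := Finset.card_erase_add_one h2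
  omega

theorem mt_chain {x y z : V} (hm : ∀ v, mu G c v ≤ 1) (h : y = x ∨ Mt G c y x)
    (h' : y = z ∨ Mt G c y z) : z = x ∨ Mt G c x z := by
  rcases h with rfl | h
  · rcases h' with rfl | h'
    · exact Or.inl rfl
    · exact Or.inr h'
  · rcases h' with rfl | h'
    · exact Or.inr (mt_symm h)
    · exact Or.inl (mt_uniq (hm y) h' h)

/-- the other two neighbours of a vertex -/
theorem other_nb (hG : G.IsRegularOfDegree 3) {a u : V} (h : G.Adj a u) :
    ∃ w w' : V, ∀ y, G.Adj a y ↔ y = u ∨ y = w ∨ y = w' := by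
  have h1 := hG a
  rw [← SimpleGraph.card_neighborFinset_eq_degree] at h1
  have h2 : u ∈ G.neighborFinset a := by
    rw [SimpleGraph.mem_neighborFinset]
    exact h
  have h3 := Finset.card_erase_add_one h2
  have h4 : ((G.neighborFinset a).erase u).card = 2 := by omega
  obtain ⟨w, w', _, he⟩ := Finset.card_eq_two.1 h4
  refine ⟨w, w', fun y => ?_⟩
  rw [← SimpleGraph.mem_neighborFinset]
  by_cases hy : y = u
  · subst hy
    exact ⟨fun _ => Or.inl rfl, fun _ => h2⟩
  · have : y ∈ (G.neighborFinset a).erase u ↔ y = w ∨ y = w' := by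
      rw [he]
      simp
    rw [← this, Finset.mem_erase]
    tauto

/-- the slots in conflict with a given slot -/
theorem conf_slot (hmu : ∀ v, mu G c v ≤ 1)
    (hcl : ∀ u a : V, IsSl G c u a → Nsl G c u a ∨ ∃ t, Msl G c u a t)
    (hcl2 : ∀ u u' a : V, IsSl G c u a → IsSl G c u' a → u = u')
    {u a : V} (hs : IsSl G c u a) {p : V × V} (hp : IsSl G c p.1 p.2) {y : V}
    (hy : y ∈ ter G c {u, a}) (hy' : y ∈ ter G c {p.1, p.2}) :
    (∃ z, (z = u ∨ Mt G c u z) ∧ p ∈ Sx G c z) ∨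
    (∃ t z, Msl G c u a t ∧ (z = t ∨ Mt G c t z) ∧ p ∈ Sx G c z) ∨
    (tB G c y ∧ G.Adj a y ∧ p ∈ Wx G c y) := by
  have h1 := mem_ter_slot hmu hcl hs hy
  have h2 := mem_ter_slot hmu hcl hp hy'
  have hz : ∀ x, tS G c y → (y = x ∨ Mt G c y x) →
      ((y = p.1 ∨ Mt G c y p.1) ∨ ∃ t, Msl G c p.1 p.2 t ∧ (y = t ∨ Mt G c y t)) →
      ∃ z, (z = x ∨ Mt G c x z) ∧ p ∈ Sx G c z := by
    intro x _ hx h
    rcases h with h | ⟨t, ht, h⟩
    · exact ⟨p.1, mt_chain hmu hx h, mem_Sx.2 ⟨hp, Or.inl rfl⟩⟩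
    · exact ⟨t, mt_chain hmu hx h, mem_Sx.2 ⟨hp, Or.inr ⟨ht.2.2.2.1, ht.2.1⟩⟩⟩
  rcases h1 with ⟨h1, h3⟩ | ⟨h1, h3⟩ | ⟨h1, h3⟩
  · rcases h2 with ⟨_, h4⟩ | ⟨h2, _⟩ | ⟨h2, _⟩
    · rcases h3 with h3 | ⟨t, ht, h3⟩
      · exact Or.inl (hz u h1 h3 h4)
      · obtain ⟨z, hz1, hz2⟩ := hz t h1 h3 h4
        exact Or.inr (Or.inl ⟨t, z, ht, hz1, hz2⟩)
    · have e1 := h1.2
      have e2 := h2.2
      omega
    · have e1 := h1.2
      have e2 := h2.2
      omega
  · rcases h2 with ⟨h2, _⟩ | ⟨_, h4⟩ | ⟨h2, _⟩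
    · have e1 := h1.2
      have e2 := h2.2
      omega
    · have : p.1 = u := hcl2 p.1 u y ⟨hp.1, h1, h4⟩ ⟨hs.1, h1, h3⟩
      exact Or.inl ⟨u, Or.inl rfl, mem_Sx.2 ⟨hp, Or.inl this⟩⟩
    · have e1 := h1.1
      have e2 := h2.1
      rw [e1] at e2
      simp at e2
  · rcases h2 with ⟨h2, _⟩ | ⟨h2, _⟩ | ⟨_, h4⟩
    · have e1 := h1.2
      have e2 := h2.2
      omega
    · have e1 := h1.1
      have e2 := h2.1
      rw [e1] at e2
      simp at e2
    · exact Or.inr (Or.inr ⟨h1, h3, mem_Wx.2 ⟨hp, h4⟩⟩)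

end

/-- row K1 -/
theorem K1 (hC : ST_CLS) : ST_K1 := by
  intro V _ _ G _ hG hT hQ c j hO hj u a hs
  obtain ⟨hcl, hcl2⟩ := hC V G hG hT hQ c j hO hj
  have hmu := hO.mu1
  obtain ⟨v, hv⟩ := mt_ex hs.1.1.2
  obtain ⟨w, w', hw⟩ := other_nb hG hs.2.2.symm
  have hu : (u, a) ∈ Sx G c u := mem_Sx.2 ⟨hs, Or.inl rfl⟩
  have c2 := Sx_card hG hcl2
  -- membership in the erased sets
  have hE : ∀ y (p : V × V), p ∈ Wx G c y → p ∈ Sx G c u ∨ p ∈ (Wx G c y).erase (u, a) := by
    intro y p hp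
    by_cases h : p = (u, a)
    · exact Or.inl (h ▸ hu)
    · exact Or.inr (Finset.mem_erase.2 ⟨h, hp⟩)
  have hU : ∀ p : V × V, (∃ z, (z = u ∨ Mt G c u z) ∧ p ∈ Sx G c z) →
      p ∈ Sx G c u ∨ p ∈ Sx G c v := by
    rintro p ⟨z, hz | hz, hp⟩
    · exact Or.inl (hz ▸ hp)
    · rw [mt_uniq (hmu u) hz hv] at hp
      exact Or.inr hp
  have hne : ∀ y, tB G c y → y ≠ u := by
    rintro y hy rfl
    have e1 := hy.2
    have e2 := hs.1.1.2
    omega
  by_cases hM : ∃ t, Msl G c u a t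
  · obtain ⟨t, ht⟩ := hM
    obtain ⟨r, hr⟩ := mt_ex ht.2.2.2.1.1.2
    -- the third neighbour of a
    obtain ⟨x, hxa, hx⟩ : ∃ x, G.Adj a x ∧ ∀ y, tB G c y → G.Adj a y → y = x := by
      have h1 := (hw t).1 ht.2.1
      have htt : ∀ y, tB G c y → y ≠ t := by
        rintro y hy rfl
        have e1 := hy.2
        have e2 := ht.2.2.2.1.1.2
        omega
      rcases h1 with h1 | h1 | h1
      · exact (ht.2.2.1 h1).elim
      · refine ⟨w', (hw w').2 (Or.inr (Or.inr rfl)), fun y hy hay => ?_⟩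
        rcases (hw y).1 hay with h | h | h
        · exact (hne y hy h).elim
        · exact (htt y hy (h.trans h1.symm)).elim
        · exact h
      · refine ⟨w, (hw w).2 (Or.inr (Or.inl rfl)), fun y hy hay => ?_⟩
        rcases (hw y).1 hay with h | h | h
        · exact (hne y hy h).elim
        · exact h
        · exact (htt y hy (h.trans h1.symm)).elim
    have hsub : (Finset.univ.filter (fun p : V × V => IsSl G c p.1 p.2 ∧
        ¬ Disjoint (ter G c {u, a}) (ter G c {p.1, p.2}))) ⊆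
        (Sx G c u ∪ Sx G c v) ∪ (Sx G c r ∪ (Wx G c x).erase (u, a)) := by
      intro p hp
      rw [Finset.mem_filter, Finset.not_disjoint_iff] at hp
      obtain ⟨_, hp, y, hy, hy'⟩ := hp
      simp only [Finset.mem_union]
      rcases conf_slot hmu hcl hcl2 hs hp hy hy' with h | ⟨t', z, ht', hz, h⟩ | ⟨h1, h2, h3⟩
      · exact Or.inl (hU p h)
      · have htt : t' = t := by
          by_contra hne'
          have h5 := ht.2.2.2.2 t' ht'.2.1 ht'.2.2.1 hne'
          have e1 := h5.2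
          have e2 := ht'.2.2.2.1.1.2
          omega
        subst htt
        rcases hz with hz | hz
        · rw [hz] at h
          have : p = (u, a) := Sx_t1 hG hcl2 ht.2.2.2.1 h
            (mem_Sx.2 ⟨hs, Or.inr ⟨ht.2.2.2.1, ht.2.1⟩⟩)
          exact Or.inl (Or.inl (this ▸ hu))
        · rw [mt_uniq (hmu t') hz hr] at h
          exact Or.inr (Or.inl h)
      · rw [hx y h1 h2] at h3
        rcases hE x p h3 with h | h
        · exact Or.inl (Or.inl h)
        · exact Or.inr (Or.inr h)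
    have h1 := Finset.card_le_card hsub
    have h2 := Finset.card_union_le (Sx G c u ∪ Sx G c v) (Sx G c r ∪ (Wx G c x).erase (u, a))
    have h3 := Finset.card_union_le (Sx G c u) (Sx G c v)
    have h4 := Finset.card_union_le (Sx G c r) ((Wx G c x).erase (u, a))
    have h5 := Wx_erase hG hcl2 hs hxa
    have h6 := c2 u
    have h7 := c2 v
    have h8 := c2 r
    omega
  · have hsub : (Finset.univ.filter (fun p : V × V => IsSl G c p.1 p.2 ∧
        ¬ Disjoint (ter G c {u, a}) (ter G c {p.1, p.2}))) ⊆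
        (Sx G c u ∪ Sx G c v) ∪ ((Wx G c w).erase (u, a) ∪ (Wx G c w').erase (u, a)) := by
      intro p hp
      rw [Finset.mem_filter, Finset.not_disjoint_iff] at hp
      obtain ⟨_, hp, y, hy, hy'⟩ := hp
      simp only [Finset.mem_union]
      rcases conf_slot hmu hcl hcl2 hs hp hy hy' with h | ⟨t', z, ht', hz, h⟩ | ⟨h1, h2, h3⟩
      · exact Or.inl (hU p h)
      · exact (hM ⟨t', ht'⟩).elim
      · rcases hE y p h3 with h | h
        · exact Or.inl (Or.inl h)
        · rcases (hw y).1 h2 with h4 | h4 | h4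
          · exact (hne y h1 h4).elim
          · rw [h4] at h
            exact Or.inr (Or.inl h)
          · rw [h4] at h
            exact Or.inr (Or.inr h)
    have h1 := Finset.card_le_card hsub
    have h2 := Finset.card_union_le (Sx G c u ∪ Sx G c v)
      ((Wx G c w).erase (u, a) ∪ (Wx G c w').erase (u, a))
    have h3 := Finset.card_union_le (Sx G c u) (Sx G c v)
    have h4 := Finset.card_union_le ((Wx G c w).erase (u, a)) ((Wx G c w').erase (u, a))
    have h5 := Wx_erase hG hcl2 hs ((hw w).2 (Or.inr (Or.inl rfl)))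
    have h6 := Wx_erase hG hcl2 hs ((hw w').2 (Or.inr (Or.inr rfl)))
    have h7 := c2 u
    have h8 := c2 v
    omega

end Pool.Agent.Helper91.MC
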