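import Pool.Agent.Helper27.MC.Base2

/-!
MP_4042d8_co: territories of slots. `mem_ter_slot` lists the members of the territory of a slot;
`conf_slot` lists the slots in conflict with a given slot (row K1 uses it).
-/

namespace Pool.Agent.Helper91.MC

open Pool.Agent.Helper27.MC

set_option autoImplicit false
set_option linter.unusedSectionVars false

section

variable {V : Type} [Fintype V] [DecidableEq V] {G : SimpleGraph V} [DecidableRel G.Adj]
  {c : V → Bool}

/-- Mates: adjacent vertices of the same colour. -/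
def Mt (G : SimpleGraph V) (c : V → Bool) (x y : V) : Prop := G.Adj x y ∧ c x = c y

theorem mt_symm {x y : V} (h : Mt G c x y) : Mt G c y x := ⟨h.1.symm, h.2.symm⟩

theorem mt_mu {x y : V} (h : Mt G c x y) : 1 ≤ mu G c x := by
  unfold mu
  exact Finset.card_pos.mpr ⟨y, Finset.mem_filter.2 ⟨Finset.mem_univ _, h.1, h.2.symm⟩⟩

theorem mt_uniq {x y z : V} (hm : mu G c x ≤ 1) (h : Mt G c x y) (h' : Mt G c x z) : y = z := by
  unfold mu at hm
  exact Finset.card_le_one.mp hm y (Finset.mem_filter.2 ⟨Finset.mem_univ _, h.1, h.2.symm⟩) z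
    (Finset.mem_filter.2 ⟨Finset.mem_univ _, h'.1, h'.2.symm⟩)

theorem mt_ex {x : V} (h : mu G c x = 1) : ∃ y, Mt G c x y := by
  unfold mu at h
  obtain ⟨y, hy⟩ := Finset.card_eq_one.mp h
  have : y ∈ Finset.univ.filter (fun w => G.Adj x w ∧ c w = c x) := by rw [hy]; simp
  rw [Finset.mem_filter] at this
  exact ⟨y, this.2.1, this.2.2.symm⟩

/-- cut neighbours and mono neighbours -/
theorem cut_card (hG : G.IsRegularOfDegree 3) (x : V) :
    (Finset.univ.filter (fun w => G.Adj x w ∧ ¬ c w = c x)).card + mu G c x = 3 := by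
  have h := hG x
  rw [← SimpleGraph.card_neighborFinset_eq_degree] at h
  rw [← h]
  unfold mu
  rw [← Finset.card_union_of_disjoint]
  · congr 1
    ext w
    simp only [Finset.mem_union, Finset.mem_filter, Finset.mem_univ, true_and,
      SimpleGraph.mem_neighborFinset]
    tauto
  · rw [Finset.disjoint_left]
    intro w hw hw'
    exact (Finset.mem_filter.1 hw).2.2 (Finset.mem_filter.1 hw').2.2

theorem tA_not_mt {x y : V} (h : tA G c x) (h' : Mt G c x y) : False := by
  have := mt_mu h'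
  rw [h.2] at this
  omega

theorem tB_not_mt {x y : V} (h : tB G c x) (h' : Mt G c x y) : False := by
  have := mt_mu h'
  rw [h.2] at this
  omega

theorem tS_of_mt {x y : V} (hm : mu G c x ≤ 1) (hx : c x = false) (h : Mt G c x y) :
    tS G c x := ⟨hx, le_antisymm hm (mt_mu h)⟩

/-- a free vertex is not of type `T1` -/
theorem fr_not_t1 {x : V} (h : Fr G c x) (h' : T1 G c x) : False := by
  obtain ⟨_, ⟨q, hq, hq'⟩, _⟩ := h'
  have := h.2 q hq hq'.1
  have h1 := this.2
  have h2 := hq'.2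
  omega

/-- the `A`-neighbour of a `T1`-vertex is unique -/
theorem t1_uniq (hG : G.IsRegularOfDegree 3) {t a a' : V} (h : T1 G c t) (ha : tA G c a)
    (ha' : tA G c a') (h1 : G.Adj t a) (h2 : G.Adj t a') : a = a' := by
  by_contra hne
  obtain ⟨hS, ⟨q, hq, hq'⟩, _⟩ := h
  have hc := cut_card (c := c) hG t
  rw [hS.2] at hc
  have hqa : q ≠ a := by
    rintro rfl
    have h3 := hq'.2
    have h4 := ha.2
    omega
  have hqa' : q ≠ a' := by
    rintro rfl
    have h3 := hq'.2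
    have h4 := ha'.2
    omega
  have hsub : ({q, a, a'} : Finset V) ⊆
      Finset.univ.filter (fun w => G.Adj t w ∧ ¬ c w = c t) := by
    intro w hw
    simp only [Finset.mem_insert, Finset.mem_singleton] at hw
    rw [Finset.mem_filter]
    refine ⟨Finset.mem_univ _, ?_⟩
    rcases hw with rfl | rfl | rfl
    · exact ⟨hq, by rw [hq'.1, hS.1]; simp⟩
    · exact ⟨h1, by rw [ha.1, hS.1]; simp⟩
    · exact ⟨h2, by rw [ha'.1, hS.1]; simp⟩
  have h3 := Finset.card_le_card hsub
  rw [Finset.card_insert_of_notMem (by simp [hqa, hqa']), Finset.card_pair hne] at h3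
  omega

/-- the members of the territory of a slot -/
theorem mem_ter_slot (hmu : ∀ v, mu G c v ≤ 1)
    (hcl : ∀ u a : V, IsSl G c u a → Nsl G c u a ∨ ∃ t, Msl G c u a t)
    {u a y : V} (hs : IsSl G c u a) (hy : y ∈ ter G c {u, a}) :
    (tS G c y ∧ ((y = u ∨ Mt G c y u) ∨ ∃ t, Msl G c u a t ∧ (y = t ∨ Mt G c y t))) ∨
    (tA G c y ∧ G.Adj u y) ∨ (tB G c y ∧ G.Adj a y) := by
  -- members of the closed neighbourhood
  have key : ∀ x, x ∈ cn G {u, a} →
      (tS G c x ∧ ((x = u ∨ Mt G c x u) ∨ ∃ t, Msl G c u a t ∧ x = t)) ∨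
      (tA G c x ∧ G.Adj u x) ∨ (tB G c x ∧ G.Adj a x) := by
    intro x hx
    have hA : ∀ x, G.Adj a x → (tS G c x ∧ ((x = u ∨ Mt G c x u) ∨ ∃ t, Msl G c u a t ∧ x = t)) ∨
      (tA G c x ∧ G.Adj u x) ∨ (tB G c x ∧ G.Adj a x) := by
      intro x hx
      by_cases hxu : x = u
      · subst hxu
        exact Or.inl ⟨hs.1.1, Or.inl (Or.inl rfl)⟩
      rcases hcl u a hs with h | ⟨t, h⟩
      · exact Or.inr (Or.inr ⟨h.2 x hx hxu, hx⟩)
      · by_cases hxt : x = t
        · subst hxt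
          exact Or.inl ⟨h.2.2.2.1.1, Or.inr ⟨x, h, rfl⟩⟩
        · exact Or.inr (Or.inr ⟨h.2.2.2.2 x hx hxu hxt, hx⟩)
    unfold cn at hx
    rw [Finset.mem_filter] at hx
    rcases hx.2 with hx | ⟨z, hz, hzx⟩
    · simp only [Finset.mem_insert, Finset.mem_singleton] at hx
      rcases hx with rfl | rfl
      · exact Or.inl ⟨hs.1.1, Or.inl (Or.inl rfl)⟩
      · exact Or.inr (Or.inl ⟨hs.2.1, hs.2.2⟩)
    · simp only [Finset.mem_insert, Finset.mem_singleton] at hz
      rcases hz with rfl | rfl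
      · cases hcx : c x
        · have hm : Mt G c x z := ⟨hzx, by rw [hcx, hs.1.1.1]⟩
          exact Or.inl ⟨tS_of_mt (hmu x) hcx hm, Or.inl (Or.inr hm)⟩
        · exact Or.inr (Or.inl ⟨hs.1.2 x hzx.symm hcx, hzx.symm⟩)
      · exact hA x hzx.symm
  unfold ter at hy
  rw [Finset.mem_filter] at hy
  rcases hy.2 with hy | ⟨x, hx, hxy, hc⟩
  · rcases key y hy with ⟨h1, h2 | ⟨t, ht, hyt⟩⟩ | h | h
    · exact Or.inl ⟨h1, Or.inl h2⟩
    · exact Or.inl ⟨h1, Or.inr ⟨t, ht, Or.inl hyt⟩⟩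
    · exact Or.inr (Or.inl h)
    · exact Or.inr (Or.inr h)
  · have hm : Mt G c x y := ⟨hxy, hc⟩
    rcases key x hx with ⟨h1, h2 | ⟨t, ht, hyt⟩⟩ | h | h
    · have hyS : tS G c y := tS_of_mt (hmu y) (by rw [← hc, h1.1]) (mt_symm hm)
      rcases h2 with rfl | h2
      · exact Or.inl ⟨hyS, Or.inl (Or.inr (mt_symm hm))⟩
      · have := mt_uniq (hmu x) hm h2
        exact Or.inl ⟨hyS, Or.inl (Or.inl this)⟩
    · have hyS : tS G c y := tS_of_mt (hmu y) (by rw [← hc, h1.1]) (mt_symm hm)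
      subst hyt
      exact Or.inl ⟨hyS, Or.inr ⟨x, ht, Or.inr (mt_symm hm)⟩⟩
    · exact (tA_not_mt h.1 hm).elim
    · exact (tB_not_mt h.1 hm).elim

end

end Pool.Agent.Helper91.MC
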